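import Pool.Agent.Lib.MP_4f4e79_gt.Dg.Asm

/-!
Weak finite decomposition complexity implies uniform asymptotic property C.
-/

namespace Pool.Agent.Apc.Dg

open Trap

universe u

variable {X : Type u} [PseudoMetricSpace X]

theorem down {ℋ : Set (Set X)} (hH : Apc1 ℋ) (hF : InF ℋ) {s : ℝ} (hs : 0 ≤ s) (n : ℕ) :
    ∀ {Ω ι : Type u} (S : Sys X Ω ι (n + 2)) (w : Ω), ∃ w' M, S.le w w' ∧ 0 ≤ M ∧
      ∀ H ∈ ℋ, ∃ V, Col (2 * (n + 1)) s M V ∧ ∀ i, Col 2 s M ((S.A i w' ∩ H) \ V) := by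
  induction n with
  | zero => exact fun S w => host_root S le_rfl hH hF s hs w
  | succ n ih =>
    intro Ω ι S w
    let S' : Sys X (Ω × {V : ℋ → Set X // ∃ M, 0 ≤ M ∧ ∀ H, Col 2 s M (V H)}) (ι × ℋ) (n + 2) :=
      { le := fun p p' => S.le p.1 p'.1 ∧ ∀ H, p.2.1 H ⊆ p'.2.1 H
        A := fun l p => (S.A l.1 p.1 ∩ l.2) \ p.2.1 l.2
        refl := fun p => ⟨S.refl _, fun _ => subset_rfl⟩
        trans := fun h1 h2 => ⟨S.trans h1.1 h2.1, fun H => (h1.2 H).trans (h2.2 H)⟩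
        anti := fun l h x hx => ⟨⟨S.anti _ h.1 hx.1.1, hx.1.2⟩, fun hv => hx.2 (h.2 _ hv)⟩
        orc := fun ρ p => by
          obtain ⟨M0, hM0, h0⟩ := p.2.2
          have h1 := abs_nonneg ρ
          have h2 := le_abs_self ρ
          obtain ⟨w', M, h3, hM, h4⟩ := host_root S (by omega) hH hF (|ρ| + M0 + 2 * s)
            (by linarith) p.1
          choose V hV hV' using fun H : ℋ => h4 H H.2
          exact ⟨(w', ⟨fun H => p.2.1 H ∪ V H, M + 2 * M0 + 2 * s, by linarith, fun H =>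
            col_union hs (h0 H) ((hV H).mono le_rfl (by linarith) le_rfl subset_rfl)⟩), M,
            ⟨h3, fun _ => Set.subset_union_left⟩, hM, fun l => (hV' l.2 l.1).mono le_rfl
              (by linarith) le_rfl fun x hx => ⟨hx.1, fun hv => hx.2 (Or.inr hv)⟩⟩ }
    obtain ⟨⟨w', V0, M0, hM0, h0⟩, M, h1, hM, h2⟩ :=
      ih S' (w, ⟨fun _ => ∅, 0, le_rfl, fun _ => as_col_empty 2 s le_rfl fun _ h => h⟩)
    refine ⟨w', M + M0, h1.1, by linarith, fun H hH => ?_⟩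
    obtain ⟨V, h3, h4⟩ := h2 H hH
    exact ⟨V ∪ V0 ⟨H, hH⟩, col_add (h3.mono le_rfl le_rfl (by linarith) subset_rfl)
      ((h0 _).mono le_rfl le_rfl (by linarith) subset_rfl), fun i =>
      (h4 (i, ⟨H, hH⟩)).mono le_rfl le_rfl (by linarith) fun x hx =>
        ⟨⟨⟨hx.1, fun hv => hx.2 (Or.inr hv)⟩, hx.1.2⟩, fun hv => hx.2 (Or.inl hv)⟩⟩

theorem CovS.mono {R : ℕ → ℝ} {M M' : ℝ} {a b : ℕ} {S S' : Set X} (h : CovS R M a b S)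
    (hM : M ≤ M') (hS : S' ⊆ S) : CovS R M' a b S' := by
  obtain ⟨T, h1, h2⟩ := h
  exact ⟨T, fun m ha hb => (h1 m ha hb).mono le_rfl hM subset_rfl, fun x hx => h2 x (hS hx)⟩

/-- Thin sets with fresh indices in the members of `𝒳` cut the members of `𝒞` down to `Q`
colours. -/
def Gq (R : ℕ → ℝ) (𝒳 : Set (Set X)) (Q : ℕ) (𝒞 : Set (Set X)) : Prop :=
  ∀ (n0 : ℕ) (ρ : ℝ), ∃ n1 M, n0 ≤ n1 ∧ 0 ≤ M ∧ ∀ P ∈ 𝒳, ∃ W, CovS R M n0 n1 W ∧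
    ∀ C ∈ 𝒞, Col Q ρ M ((P ∩ C) \ W)

variable {R : ℕ → ℝ} {𝒳 𝒞 : Set (Set X)} {𝒴 : ℝ → Set (Set X)} {c : ℕ}

theorem g_step (hR : Monotone R) (hcov : ∀ r, 0 < r → Cov c r 𝒳 (𝒴 r))
    (hY : ∀ r, 0 < r → Apc1 (𝒴 r) ∧ WFdc (𝒴 r)) {n : ℕ} (h : Gq R 𝒳 (n + 3) 𝒞) :
    Gq R 𝒳 (2 * c) 𝒞 := by
  intro n0 ρ
  obtain ⟨a0, ha0⟩ : ∃ a0, a0 = n0 + 2 * (n + 1) * c := ⟨_, rfl⟩
  obtain ⟨s, hs⟩ : ∃ s, s = |ρ| + |R a0| := ⟨_, rfl⟩
  have h1 := abs_nonneg ρ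
  have h2 := le_abs_self ρ
  have h3 := abs_nonneg (R a0)
  have h4 := le_abs_self (R a0)
  have hr : 0 < s + 1 := by linarith
  let S : Sys X {p : ℕ × (𝒳 → Set X) // a0 ≤ p.1 ∧ ∃ M, 0 ≤ M ∧ ∀ P, CovS R M a0 p.1 (p.2 P)}
      (𝒳 × 𝒞) (n + 2) :=
    { le := fun p p' => ∀ P, p.1.2 P ⊆ p'.1.2 P
      A := fun l p => (l.1 ∩ l.2 : Set X) \ p.1.2 l.1
      refl := fun _ _ => subset_rfl
      trans := fun h1 h2 P => (h1 P).trans (h2 P)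
      anti := fun l h x hx => ⟨hx.1, fun hv => hx.2 (h _ hv)⟩
      orc := fun ρ p => by
        obtain ⟨h5, M0, hM0, h6⟩ := p.2
        obtain ⟨n1, M, h7, hM, h8⟩ := h p.1.1 ρ
        choose W hW hW' using fun P : 𝒳 => h8 P P.2
        exact ⟨⟨(n1, fun P => p.1.2 P ∪ W P), h5.trans h7, M + M0, by linarith, fun P =>
          ((h6 P).mono (by linarith) subset_rfl).append ((hW P).mono (by linarith) subset_rfl)
            h5 h7⟩, M, fun _ => Set.subset_union_left, hM, fun l => (hW' l.1 l.2 l.2.2).mono le_rfl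
          le_rfl le_rfl fun x hx => ⟨hx.1, fun hv => hx.2 (Or.inr hv)⟩⟩ }
  obtain ⟨⟨⟨n1, W⟩, h5, M0, hM0, h6⟩, M, -, hM, h7⟩ := down (hY _ hr).1
    ⟨_, (hY _ hr).2, fun P hP _ => ⟨P, hP, subset_rfl⟩⟩ (s := s) (by linarith) n S
    ⟨(a0, fun _ => ∅), le_rfl, 0, le_rfl, fun _ => ⟨fun _ => ∅, fun _ _ _ => thin_empty _ le_rfl,
      fun _ h => h.elim⟩⟩
  choose! V hV hV' using h7
  refine ⟨n1, M + M0, by dsimp only at h5; omega, by linarith, fun P hP => ?_⟩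
  obtain ⟨𝒰, h8, h9⟩ := hcov _ hr P hP
  have key : Col (2 * (n + 1) * c) s M {x | ∃ a < c,
      x ∈ {y | ∃ U ∈ 𝒰 a, y ∈ U ∧ y ∈ V U} ∩ ⋃₀ 𝒰 a} := by
    refine col_sum hM c fun a ha => col_pieces hM (h8 a ha).2.2 (lt_add_one s) fun U hU =>
      (hV U ((h8 a ha).1 hU)).mono le_rfl le_rfl le_rfl ?_
    rintro y ⟨⟨U', hU', hy, hv⟩, hyU⟩
    by_cases e : U' = U
    · exact e ▸ hv
    · linarith [(h8 a ha).2.2 U' hU' U hU e y hy y hyU, dist_self y]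
  refine ⟨_, ((ha0 ▸ covS_col key fun m hm => by linarith [hR (ha0 ▸ hm.le : m ≤ a0)] :
    CovS R M n0 a0 _).mono (by linarith) subset_rfl).append
    ((h6 ⟨P, hP⟩).mono (by linarith) subset_rfl) (by omega) h5, fun C hC => ?_⟩
  refine (col_sum hM c fun a ha => col_pieces (P := {y | y ∈ (P ∩ C) \ W ⟨P, hP⟩ ∧
    ∀ U ∈ 𝒰 a, y ∈ U → y ∉ V U}) hM (h8 a ha).2.2 (lt_add_one s) fun U hU =>
      (hV' U ((h8 a ha).1 hU) (⟨P, hP⟩, ⟨C, hC⟩)).mono le_rfl le_rfl le_rfl fun y hy =>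
        ⟨⟨hy.1.1, hy.2⟩, hy.1.2 U hU hy.2⟩).mono le_rfl (by linarith) (by linarith) fun y hy => ?_
  obtain ⟨a, ha, U, hU, hyU⟩ := h9 y hy.1.1
  exact ⟨a, ha, ⟨⟨hy.1, fun hv => hy.2 (Or.inr hv)⟩, fun U' hU' h h' =>
    hy.2 (Or.inl ⟨a, ha, ⟨U', hU', h, h'⟩, U', hU', h⟩)⟩, U, hU, hyU⟩

theorem g_fdc (hR : Monotone R) (hcov : ∀ r, 0 < r → Cov c r 𝒳 (𝒴 r))
    (hY : ∀ r, 0 < r → Apc1 (𝒴 r) ∧ WFdc (𝒴 r)) (h : WFdc 𝒞) : Gq R 𝒳 (2 * c) 𝒞 := by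
  induction h with
  | bdd h =>
    obtain ⟨M, hM⟩ := h
    refine g_step hR hcov hY (n := 0) fun n0 ρ => ⟨n0, |M|, le_rfl, abs_nonneg M, fun P _ =>
      ⟨∅, ⟨fun _ => ∅, fun _ _ _ => thin_empty _ (abs_nonneg M), fun _ h => h.elim⟩, fun C hC =>
        (col_one (thin_of_diam (abs_nonneg M) fun x hx y hy => (hM C hC x hx.1.2 y hy.1.2).trans
          (le_abs_self M))).mono (by omega) le_rfl le_rfl subset_rfl⟩⟩
  | dec d 𝒵 _ hZ ih =>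
    refine g_step hR hcov hY (n := 2 * c * d) fun n0 ρ => ?_
    have hr : 0 < |ρ| + 1 := by positivity
    obtain ⟨n1, M, h1, hM, h2⟩ := ih _ hr n0 ρ
    refine ⟨n1, M, h1, hM, fun P hP => ?_⟩
    obtain ⟨W, h3, h4⟩ := h2 P hP
    refine ⟨W, h3, fun C hC => ?_⟩
    obtain ⟨𝒰, h5, h6⟩ := hZ _ hr C hC
    refine (col_sum hM d fun a ha => col_pieces (P := P \ W) hM (h5 a ha).2.2
      (by linarith [le_abs_self ρ]) fun U hU => (h4 U ((h5 a ha).1 hU)).mono le_rfl le_rfl le_rfl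
        fun y hy => ⟨⟨hy.1.1, hy.2⟩, hy.1.2⟩).mono (by omega) le_rfl le_rfl fun y hy => ?_
    obtain ⟨a, ha, U, hU, hyU⟩ := h6 y hy.1.2
    exact ⟨a, ha, ⟨hy.1.1, hy.2⟩, U, hU, hyU⟩

/-- Weak finite decomposition complexity implies uniform asymptotic property C. -/
theorem wfdc_apc (h : WFdc 𝒳) : Apc1 𝒳 := by
  induction h with
  | bdd h => exact apc1_of_bdd h
  | dec c 𝒴 hY hcov ih =>
    intro R
    obtain ⟨Rb, hRm, hRb⟩ : ∃ Rb : ℕ → ℝ, Monotone Rb ∧ ∀ n, R n ≤ Rb n :=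
      ⟨fun n => ∑ j ∈ Finset.range (n + 1), |R j|, fun j n hj =>
        Finset.sum_le_sum_of_subset_of_nonneg (Finset.range_mono (by omega))
          fun _ _ _ => abs_nonneg _,
        fun n => (le_abs_self _).trans (Finset.single_le_sum (f := fun j => |R j|)
          (fun _ _ => abs_nonneg _) (Finset.mem_range.2 (Nat.lt_succ_self n)))⟩
    obtain ⟨n1, M, h1, -, h2⟩ := g_fdc hRm hcov (fun r hr => ⟨ih r hr, hY r hr⟩)
      (WFdc.dec c 𝒴 hY hcov) (0 + 2 * c) (Rb (0 + 2 * c))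
    refine ⟨n1, M, fun P hP => ?_⟩
    obtain ⟨W, h3, h4⟩ := h2 P hP
    obtain ⟨T, h5, h6⟩ := (covS_col (h4 P hP) fun m hm => hRm hm.le).append h3 (Nat.zero_le _) h1
    refine ⟨T, fun m hm => (h5 m (Nat.zero_le m) hm).mono (hRb m) le_rfl subset_rfl, fun x hx => ?_⟩
    obtain ⟨m, -, h7⟩ := h6 x (by
      by_cases hw : x ∈ W
      · exact Or.inr hw
      · exact Or.inl ⟨⟨hx, hx⟩, hw⟩)
    exact ⟨m, h7⟩

end Pool.Agent.Apc.Dg
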