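import Pool.Agent.Lib.MP_4f4e79_gt.Dg.Leaf

/-!
Property C pulls back along a uniformly expansive family of maps when the preimages of bounded
families have property C and finite decomposition complexity.
-/

namespace Pool.Agent.Apc.Dg

open Trap

variable {X Y ι : Type*} [PseudoMetricSpace X] [PseudoMetricSpace Y]

/-- `S` is covered by sets with index `m` in `[a, b)` that are thin at the scale `R m`. -/
def CovS (R : ℕ → ℝ) (M : ℝ) (a b : ℕ) (S : Set X) : Prop :=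
  ∃ T : ℕ → Set X, (∀ m, a ≤ m → m < b → Thin (R m) M (T m)) ∧
    ∀ x ∈ S, ∃ m, a ≤ m ∧ m < b ∧ x ∈ T m

variable {R : ℕ → ℝ} {M : ℝ}

theorem CovS.append {a b c : ℕ} {S S' : Set X} (h : CovS R M a b S) (h' : CovS R M b c S')
    (hab : a ≤ b) (hbc : b ≤ c) : CovS R M a c (S ∪ S') := by
  obtain ⟨T, h1, h2⟩ := h
  obtain ⟨T', h3, h4⟩ := h'
  refine ⟨fun m => if m < b then T m else T' m, fun m ha hc => ?_, ?_⟩
  · dsimp only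
    split_ifs with hb
    · exact h1 m ha hb
    · exact h3 m (not_lt.1 hb) hc
  · rintro x (hx | hx)
    · obtain ⟨m, h5, h6, h7⟩ := h2 x hx
      exact ⟨m, h5, by omega, by simpa only [if_pos h6] using h7⟩
    · obtain ⟨m, h5, h6, h7⟩ := h4 x hx
      exact ⟨m, by omega, h6, by simpa only [if_neg (not_lt.2 h5)] using h7⟩

theorem covS_col {a n : ℕ} {s : ℝ} {S : Set X} (h : Col n s M S) (hR : ∀ m < a + n, R m ≤ s) :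
    CovS R M a (a + n) S := by
  obtain ⟨κ, h1, h2⟩ := h
  refine ⟨fun m => {x | x ∈ S ∧ κ x = m - a}, fun m _ hm => (h2 _).mono (hR m hm) le_rfl subset_rfl,
    fun x hx => ⟨a + κ x, by omega, by linarith [h1 x hx], hx, by omega⟩⟩

theorem covS_blocks (pos : ℕ → ℕ) (hpos : Monotone pos) (S : ℕ → Set X) (K : ℕ)
    (h : ∀ i < K, CovS R M (pos i) (pos (i + 1)) (S i)) :
    CovS R M (pos 0) (pos K) {x | ∃ i < K, x ∈ S i} := by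
  induction K with
  | zero => exact ⟨fun _ => ∅, fun m _ _ => by omega, fun x ⟨_, hi, _⟩ => by omega⟩
  | succ K ih =>
    obtain ⟨T, h1, h2⟩ := (ih fun i hi => h i (by omega)).append (h K (Nat.lt_succ_self K))
      (hpos (Nat.zero_le K)) (hpos (Nat.le_succ K))
    refine ⟨T, h1, fun x ⟨i, hi, hx⟩ => h2 x ?_⟩
    rcases Nat.lt_succ_iff_lt_or_eq.1 hi with hi | rfl
    · exact Or.inl ⟨i, hi, hx⟩
    · exact Or.inr hx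

/-- A chain class in `T`, thickened by `t`, inside `V`. -/
def Qc (V T : Set Y) (σ t : ℝ) (y : Y) : Set Y :=
  {y' | y' ∈ V ∧ ∃ q, Chain σ T y q ∧ dist q y' ≤ t}

theorem qc_diam {V T : Set Y} {σ t D : ℝ} (h : Thin σ D T) (y : Y) :
    ∀ z ∈ Qc V T σ t y, ∀ z' ∈ Qc V T σ t y, dist z z' ≤ D + 2 * t := by
  rintro z ⟨-, q, hq, hd⟩ z' ⟨-, q', hq', hd'⟩
  linarith [h _ _ (hq.symm.trans hq'), dist_triangle4 z q q' z', dist_comm z q]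

theorem block {A : Set X} {f : X → Y} {V : Set Y} {T : ℕ → Set Y} {k p : ℕ} {σ : ℕ → ℝ}
    {t s : ℝ} (hM : 0 ≤ M) (hR : Monotone R) (hs : R (p + 2 * k) ≤ s)
    (hex : ∀ c, ∀ x ∈ A, ∀ y ∈ A, dist x y ≤ R (p + 2 * c + 1) → dist (f x) (f y) + 2 * t ≤ σ c)
    {W : Set Y → Set X} (hW : ∀ Q, Col 2 s M (W Q)) :
    CovS R M p (p + 2 * k) {x | ∃ c < k, x ∈ {x | x ∈ A ∧ ∃ y ∈ T c,
      f x ∈ Qc V (T c) (σ c) t y ∧ x ∈ W (Qc V (T c) (σ c) t y)}} := by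
  refine covS_blocks (fun c => p + 2 * c) (fun a b h => by dsimp only; omega) _ k fun c hc => ?_
  refine covS_col (n := 2) (s := R (p + 2 * c + 1)) ?_ fun m hm => hR (by omega)
  have : ∀ x ∈ {x | x ∈ A ∧ ∃ y ∈ T c, f x ∈ Qc V (T c) (σ c) t y ∧
      x ∈ W (Qc V (T c) (σ c) t y)}, ∃ Q, ∃ y ∈ T c, Q = Qc V (T c) (σ c) t y ∧ f x ∈ Q ∧ x ∈ W Q :=
    fun x ⟨_, y, h1, h2⟩ => ⟨_, y, h1, rfl, h2⟩
  choose! τ hτ using this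
  refine col_local hM τ (fun x hx x' hx' hd => ?_) fun x _ =>
    (hW (τ x)).mono le_rfl ((hR (by omega)).trans hs) le_rfl fun z hz => ?_
  · obtain ⟨y, hy, e, h1, -⟩ := hτ x hx
    obtain ⟨y', hy', e', h2, -⟩ := hτ x' hx'
    rw [e] at h1 ⊢
    rw [e'] at h2 ⊢
    obtain ⟨-, q, hq, h3⟩ := h1
    obtain ⟨-, q', hq', h4⟩ := h2
    have hc : Chain (σ c) (T c) y y' := (hq.tail (hq.mem hy) (hq'.mem hy') (by
      linarith [hex c x hx.1 x' hx'.1 hd, dist_triangle4 q (f x) (f x') q',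
        dist_comm (f x') q'])).trans hq'.symm
    ext z
    exact ⟨fun ⟨hz, u, hu, h⟩ => ⟨hz, u, hc.symm.trans hu, h⟩,
      fun ⟨hz, u, hu, h⟩ => ⟨hz, u, hc.trans hu, h⟩⟩
  · obtain ⟨-, -, -, -, h⟩ := hτ z hz.1
    exact hz.2 ▸ h

theorem apc1_sub' {𝒳 𝒳' : Set (Set X)} (h : Apc1 𝒳)
    (hs : ∀ S ∈ 𝒳', S.Nonempty → ∃ S' ∈ 𝒳, S ⊆ S') : Apc1 𝒳' := by
  intro R
  obtain ⟨k, M, hk⟩ := h R
  refine ⟨k, |M|, fun S hS => ?_⟩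
  rcases S.eq_empty_or_nonempty with rfl | hne
  · exact ⟨fun _ => ∅, fun _ _ => thin_empty _ (abs_nonneg M), fun _ h => h.elim⟩
  obtain ⟨S', h1, h2⟩ := hs S hS hne
  obtain ⟨T, h3, h4⟩ := hk S' h1
  exact ⟨T, fun i hi => (h3 i hi).mono le_rfl (le_abs_self M) subset_rfl, fun x hx => h4 x (h2 hx)⟩

theorem pull {A : ι → Set X} {f : ι → X → Y} {𝒴 : Set (Set Y)} {ρ : ℝ → ℝ}
    (hρ : MonotoneOn ρ (Set.Ici 0))
    (hexp : ∀ i, ∀ x ∈ A i, ∀ y ∈ A i, dist (f i x) (f i y) ≤ ρ (dist x y))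
    (hfib : ∀ ℬ : Set (Set Y), BddFam ℬ → (∀ V ∈ ℬ, ∃ W ∈ 𝒴, V ⊆ W) →
      Apc1 (as_pre A f ℬ) ∧ InF (as_pre A f ℬ))
    {Z : Set (Set Y)} (hZ : ∀ V ∈ Z, ∃ W ∈ 𝒴, V ⊆ W) (h : Apc1 Z) : Apc1 (as_pre A f Z) := by
  classical
  intro R
  obtain ⟨Rb, hRm, hR0, hRb⟩ : ∃ Rb : ℕ → ℝ, Monotone Rb ∧ (∀ n, 0 ≤ Rb n) ∧ ∀ n, R n ≤ Rb n :=
    ⟨fun n => ∑ j ∈ Finset.range (n + 1), |R j|, fun j n hj =>
      Finset.sum_le_sum_of_subset_of_nonneg (Finset.range_mono (by omega))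
        fun _ _ _ => abs_nonneg _, fun n => Finset.sum_nonneg fun _ _ => abs_nonneg _,
      fun n => (le_abs_self _).trans (Finset.single_le_sum (f := fun j => |R j|)
        (fun _ _ => abs_nonneg _) (Finset.mem_range.2 (Nat.lt_succ_self n)))⟩
  have hex : ∀ i p (t : ℝ) c, ∀ x ∈ A i, ∀ y ∈ A i, dist x y ≤ Rb (p + 2 * c + 1) →
      dist (f i x) (f i y) + 2 * t ≤ ρ (Rb (p + 2 * c + 1)) + 2 * t := fun i p t c x hx y hy hd =>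
    by linarith [hexp i x hx y hy, hρ dist_nonneg (hR0 _) hd]
  have hG : ∀ (D : ℝ) (𝒳 : Set (Set X)), (∀ S ∈ 𝒳, S.Nonempty → ∃ i V, as_G 𝒴 D V ∧
      S ⊆ A i ∩ f i ⁻¹' V) → Apc1 𝒳 ∧ InF 𝒳 := by
    intro D 𝒳 hX
    obtain ⟨h1, 𝒞, h2, h3⟩ := hfib {V | as_G 𝒴 D V} ⟨D, fun V hV => hV.2⟩ fun V hV => hV.1
    refine ⟨apc1_sub' h1 fun S hS hne => ?_, 𝒞, h2, fun S hS hne => ?_⟩
    all_goals obtain ⟨i, V, h4, h5⟩ := hX S hS hne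
    · exact ⟨_, ⟨i, V, h4, rfl⟩, h5⟩
    · obtain ⟨C, hC, h6⟩ := h3 _ ⟨i, V, h4, rfl⟩ (hne.mono h5)
      exact ⟨C, hC, h5.trans h6⟩
  choose k D hk using fun (p : ℕ) (t : ℝ) => h fun c => ρ (Rb (p + 2 * c + 1)) + 2 * t
  obtain ⟨D0, hD0⟩ : ∃ D0, D0 = D 0 0 + 2 * 0 := ⟨_, rfl⟩
  let pos : ℕ → ℕ := fun n => Nat.rec (0 + 2 * k 0 0) (fun _ p => p + 2 * k p D0) n
  have hpos : Monotone pos := monotone_nat_of_le_succ fun n => Nat.le_add_right _ _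
  let L : ι × Set Y × (ℕ → Set Y) → Set X := fun l => {x | (x ∈ A l.1 ∧ f l.1 x ∈ l.2.1) ∧
    as_G 𝒴 D0 l.2.1 ∧ ∀ n, l.2.1 ⊆ l.2.2 n ∧ as_G 𝒴 (D (pos n) D0 + 2 * D0) (l.2.2 n)}
  obtain ⟨K, M, W, hM, hW, hL⟩ := core2 (R := fun n => Rb (pos (n + 1))) (L := L)
    (host := fun n l => (l.1, l.2.2 n)) (H := fun n j => {x | (x ∈ A j.1 ∧ f j.1 x ∈ j.2) ∧
      as_G 𝒴 (D (pos n) D0 + 2 * D0) j.2}) (fun _ => hR0 _)
    (fun n l x hx => ⟨⟨hx.1.1, (hx.2.2 n).1 hx.1.2⟩, (hx.2.2 n).2⟩)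
    (fun n => hG _ _ (by
      rintro _ ⟨j, rfl⟩ ⟨x, hx⟩
      exact ⟨j.1, j.2, hx.2, fun y hy => hy.1⟩))
    (hG D0 _ (by
      rintro _ ⟨l, rfl⟩ ⟨x, hx⟩
      exact ⟨l.1, l.2.1, hx.2.1, fun y hy => hy.1⟩)).2 (Rb (pos 0))
  refine ⟨pos K, M, ?_⟩
  rintro _ ⟨i, V, hV, rfl⟩
  obtain ⟨W0, hW0, hVW⟩ := hZ V hV
  choose T hT hT' using fun p t => hk p t V hV
  have hQ : ∀ p t, ∀ c < k p t, ∀ y, as_G 𝒴 (D p t + 2 * t)
      (Qc V (T p t c) (ρ (Rb (p + 2 * c + 1)) + 2 * t) t y) := fun p t c hc y =>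
    ⟨⟨W0, hW0, fun z hz => hVW hz.1⟩, qc_diam (hT p t c hc) y⟩
  have hst : ∀ (S : Set Y) (n : ℕ), ∃ Q : Set Y, S.Nonempty → S ⊆ V → as_G 𝒴 D0 S →
      ∃ c < k (pos n) D0, ∃ y ∈ T (pos n) D0 c,
        Q = Qc V (T (pos n) D0 c) (ρ (Rb (pos n + 2 * c + 1)) + 2 * D0) D0 y ∧ S ⊆ Q := by
    intro S n
    by_cases hS : S.Nonempty ∧ S ⊆ V
    · obtain ⟨⟨z, hz⟩, hS⟩ := hS
      obtain ⟨c, hc, hzc⟩ := hT' (pos n) D0 z (hS hz)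
      exact ⟨_, fun _ _ hd => ⟨c, hc, z, hzc, rfl,
        fun y hy => ⟨hS hy, z, Chain.refl _, hd.2 z hz y hy⟩⟩⟩
    · exact ⟨∅, fun h3 h4 => (hS ⟨h3, h4⟩).elim⟩
  choose hs hst using hst
  obtain ⟨U, h1, h2⟩ := (block (V := V) (T := T 0 0) hM hRm le_rfl (hex i 0 0)
    fun S => hL (i, S, hs S)).append (covS_blocks pos hpos _ K fun n _ =>
      block (V := V) (T := T (pos n) D0) hM hRm le_rfl (hex i (pos n) D0) fun Q => hW n (i, Q))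
    (Nat.zero_le _) (hpos (Nat.zero_le K))
  refine ⟨U, fun m hm => (h1 m (Nat.zero_le m) hm).mono (hRb m) le_rfl subset_rfl, fun x hx => ?_⟩
  obtain ⟨c, hc, hxc⟩ := hT' 0 0 _ hx.2
  have h3 := hD0 ▸ hQ 0 0 c hc (f i x)
  generalize e : Qc V (T 0 0 c) (ρ (Rb (0 + 2 * c + 1)) + 2 * 0) 0 (f i x) = S at h3
  have h4 : f i x ∈ S := e ▸ ⟨hx.2, _, Chain.refl _, (dist_self _).le⟩
  have h5 := fun n => hst S n ⟨_, h4⟩ (e ▸ fun z hz => hz.1) h3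
  have : ∃ m, 0 ≤ m ∧ m < pos K ∧ x ∈ U m := by
    refine h2 x ?_
    by_cases hz : ∀ n < K, x ∉ W n (i, hs S n)
    · refine Or.inl ⟨c, hc, hx.1, _, hxc, e ▸ h4, e ▸ ⟨⟨⟨hx.1, h4⟩, h3, fun n => ?_⟩, hz⟩⟩
      obtain ⟨c', hc', y, -, e', h6⟩ := h5 n
      exact ⟨h6, (e' ▸ hQ _ _ c' hc' y : as_G 𝒴 _ (hs S n))⟩
    · push Not at hz
      obtain ⟨n, hn, hz⟩ := hz
      obtain ⟨c', hc', y, hy, e', h6⟩ := h5 n
      exact Or.inr ⟨n, hn, c', hc', hx.1, y, hy, e' ▸ h6 h4, e' ▸ hz⟩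
  obtain ⟨m, -, h6⟩ := this
  exact ⟨m, h6⟩

end Pool.Agent.Apc.Dg
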