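import Pool.Agent.Lib.MP_4f4e79_gt.Bar

/-!
Neighbourhoods, unions of colourings, and the separator lemma for a set with two sides.
-/

namespace Pool.Agent.Apc.Dg

open Trap

variable {X : Type*} [PseudoMetricSpace X]

/-- The closed neighbourhood of radius `r`. -/
def Nb (r : ℝ) (B : Set X) : Set X := {y | ∃ z ∈ B, dist y z ≤ r}

theorem sub_nb {r : ℝ} (hr : 0 ≤ r) (B : Set X) : B ⊆ Nb r B :=
  fun y hy => ⟨y, hy, by rwa [dist_self]⟩

theorem nb_mono {r r' : ℝ} {B B' : Set X} (hr : r ≤ r') (hB : B ⊆ B') : Nb r B ⊆ Nb r' B' :=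
  fun _ ⟨z, hz, hd⟩ => ⟨z, hB hz, hd.trans hr⟩

theorem nb_step {r r' : ℝ} {B : Set X} {x y : X} (hy : y ∈ Nb r B) (hd : dist x y ≤ r') :
    x ∈ Nb (r' + r) B := by
  obtain ⟨z, hz, h⟩ := hy
  exact ⟨z, hz, by linarith [dist_triangle x y z]⟩

theorem nb_nb {r r' t : ℝ} {B B' : Set X} (h : B ⊆ Nb r' B') (ht : r + r' ≤ t) :
    Nb r B ⊆ Nb t B' :=
  fun _ ⟨_, hz, hd⟩ => nb_mono ht subset_rfl (nb_step (h hz) hd)

theorem thin_nb {s a M : ℝ} {U : Set X} (ha : 0 ≤ a) (h : Thin (s + 2 * a) M U) :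
    Thin s (M + 2 * a) (Nb a U) := by
  have hp : ∀ x, ∃ p, x ∈ Nb a U → p ∈ U ∧ dist x p ≤ a := by
    intro x
    by_cases hx : x ∈ Nb a U
    · obtain ⟨z, hz, hd⟩ := hx
      exact ⟨z, fun _ => ⟨hz, hd⟩⟩
    · exact ⟨x, fun h => (hx h).elim⟩
  choose p hp using hp
  intro x y hc
  rcases hc.eq_or_mem with rfl | hx
  · have := h x x (Chain.refl x)
    linarith
  have key : Chain (s + 2 * a) U (p x) (p y) := by
    induction hc with
    | refl => exact Chain.refl _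
    | @tail b d _ hbd ih =>
      refine ih.tail (hp b hbd.1).1 (hp d hbd.2.1).1 ?_
      linarith [dist_triangle4 (p b) b d (p d), dist_comm (p b) b, (hp b hbd.1).2,
        (hp d hbd.2.1).2, hbd.2.2]
  linarith [h _ _ key, dist_triangle4_right x y (p x) (p y), (hp x hx).2, (hp y (hc.mem hx)).2]

theorem col_union {n : ℕ} {s M M' : ℝ} {P P' : Set X} (hs : 0 ≤ s) (h : Col n s M P)
    (h' : Col n (M + 2 * s) M' P') : Col n s (M' + 2 * M + 2 * s) (P ∪ P') := by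
  classical
  obtain ⟨κ, h1, h2⟩ := h
  obtain ⟨κ', h1', h2'⟩ := h'
  refine ⟨fun x => if x ∈ P then κ x else κ' x, fun x hx => ?_, fun a => ?_⟩
  · dsimp only
    split_ifs with hP
    · exact h1 x hP
    · exact h1' x (hx.resolve_left hP)
  · refine (thin_union hs (h2 a) (h2' a)).mono le_rfl le_rfl ?_
    rintro x ⟨hx, he⟩
    by_cases hP : x ∈ P
    · exact Or.inl ⟨hP, by simpa [hP] using he⟩
    · exact Or.inr ⟨hx.resolve_left hP, by simpa [hP] using he⟩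

theorem col_add {n n' : ℕ} {s M : ℝ} {P P' : Set X} (h : Col n s M P)
    (h' : Col n' s M P') : Col (n + n') s M (P ∪ P') := by
  classical
  obtain ⟨κ, h1, h2⟩ := h
  obtain ⟨κ', h1', h2'⟩ := h'
  refine ⟨fun x => if x ∈ P then κ x else n + κ' x, fun x hx => ?_, fun a => ?_⟩
  · dsimp only
    split_ifs with hP
    · have := h1 x hP
      omega
    · have := h1' x (hx.resolve_left hP)
      omega
  · by_cases ha : a < n
    · refine (h2 a).mono le_rfl le_rfl ?_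
      rintro x ⟨hx, he⟩
      by_cases hP : x ∈ P
      · exact ⟨hP, by simpa [hP] using he⟩
      · simp only [hP, if_false] at he
        omega
    · refine (h2' (a - n)).mono le_rfl le_rfl ?_
      rintro x ⟨hx, he⟩
      by_cases hP : x ∈ P
      · simp only [hP, if_true] at he
        have := h1 x hP
        omega
      · simp only [hP, if_false] at he
        exact ⟨hx.resolve_left hP, by omega⟩

theorem col_one {s M : ℝ} {P : Set X} (h : Thin s M P) : Col 1 s M P :=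
  ⟨fun _ => 0, fun _ _ => one_pos, fun _ => h.mono le_rfl le_rfl fun _ hx => hx.1⟩

theorem col_split {n : ℕ} {s M : ℝ} {P : Set X} (h : Col (n + 1) s M P) :
    ∃ G : Set X, Thin s M G ∧ Col n s M (P \ G) := by
  obtain ⟨κ, h1, h2⟩ := h
  refine ⟨_, h2 n, κ, fun x hx => ?_, fun a => (h2 a).mono le_rfl le_rfl fun x hx => ⟨hx.1.1, hx.2⟩⟩
  have h3 := h1 x hx.1
  have h4 : κ x ≠ n := fun e => hx.2 ⟨hx.1, e⟩
  omega

theorem col_local {I : Type*} {n : ℕ} {s M : ℝ} {P : Set X} (hM : 0 ≤ M) (τ : X → I)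
    (hτ : ∀ x ∈ P, ∀ y ∈ P, dist x y ≤ s → τ x = τ y)
    (h : ∀ x ∈ P, Col n s M {y | y ∈ P ∧ τ y = τ x}) : Col n s M P := by
  have h' : ∀ i, Col n s M {y | y ∈ P ∧ τ y = i} := by
    intro i
    by_cases hi : ∃ x ∈ P, τ x = i
    · obtain ⟨x, hx, rfl⟩ := hi
      exact h x hx
    · exact as_col_empty n s hM fun x hx => hi ⟨x, hx.1, hx.2⟩
  choose κ h1 h2 using h'
  refine ⟨fun x => κ (τ x) x, fun x hx => h1 _ x ⟨hx, rfl⟩, fun a x y hc => ?_⟩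
  rcases hc.eq_or_mem with rfl | hx
  · rwa [dist_self]
  refine h2 (τ x) a x y (hc.refine (fun _ => ⟨⟨hx.1, rfl⟩, hx.2⟩) ?_)
  rintro b d - - hb - hd hbd
  have e : τ d = τ x := (hτ b hb.1.1 d hd.1 hbd).symm.trans hb.1.2
  exact ⟨⟨hd.1, e⟩, e ▸ hd.2⟩

/-- A directed system of shrinking remainders that have `q + 1` colours at every scale. -/
structure Sys (X : Type*) [PseudoMetricSpace X] (Ω ι : Type*) (q : ℕ) where
  le : Ω → Ω → Prop
  A : ι → Ω → Set X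
  refl : ∀ w, le w w
  trans : ∀ {a b c}, le a b → le b c → le a c
  anti : ∀ {a b} i, le a b → A i b ⊆ A i a
  orc : ∀ (ρ : ℝ) w, ∃ w' M, le w w' ∧ 0 ≤ M ∧ ∀ i, Col (q + 1) ρ M (A i w')

variable {Ω ι : Type*} {q : ℕ}

/-- After removing `j` thin sets from a member, the remainders have `q` colours. -/
def Root (S : Sys X Ω ι q) (j : ℕ) (𝒞 : Set (Set X)) : Prop :=
  ∀ s : ℝ, 0 ≤ s → ∀ w, ∃ w' M, S.le w w' ∧ 0 ≤ M ∧ ∀ C ∈ 𝒞, ∃ V, Col j s M V ∧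
    ∀ i, Col q s M ((S.A i w' ∩ C) \ V)

/-- After removing `j` thin sets, every set is surrounded by a wall on which the remainders have
`q` colours. -/
def Sep (S : Sys X Ω ι q) (j : ℕ) (𝒞 : Set (Set X)) : Prop :=
  ∀ s : ℝ, 0 ≤ s → ∀ w, ∃ w' M, S.le w w' ∧ 0 ≤ M ∧ ∀ C ∈ 𝒞, ∃ V, Col j s M V ∧
    ∀ E : Set X, ∃ B, E ⊆ B ∧ B ⊆ Nb M E ∧ ∀ i, Col q s M ((S.A i w' ∩ C ∩ (Nb s B \ B)) \ V)

/-- After removing `j` thin sets, the remainders have `q` colours on each of two sides. -/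
def Two (S : Sys X Ω ι q) (j : ℕ) (𝒞 : Set (Set X)) : Prop :=
  ∀ s : ℝ, 0 ≤ s → ∀ w, ∃ w' M, S.le w w' ∧ 0 ≤ M ∧ ∀ C ∈ 𝒞, ∃ V K, Col j s M V ∧
    ∀ i, Col q s M (((S.A i w' ∩ C) \ K) \ V) ∧ Col q s M ((S.A i w' ∩ C ∩ Nb s K) \ V)

theorem Two.sep {S : Sys X Ω ι q} {j : ℕ} {𝒞 : Set (Set X)} (h : Two S j 𝒞) : Sep S j 𝒞 := by
  classical
  intro s hs w
  obtain ⟨w1, μ, h1, hμ, h2⟩ := h s hs w
  obtain ⟨w2, M, h3, hM, h4⟩ := S.orc (μ + 2 * s) w1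
  refine ⟨w2, M + 2 * μ + 2 * s, S.trans h1 h3, by linarith, fun C hC => ?_⟩
  obtain ⟨V, K, hV, hK⟩ := h2 C hC
  refine ⟨V, hV.mono le_rfl le_rfl (by linarith) subset_rfl, fun E =>
    ⟨E ∪ (Nb (s + M) E \ Nb s K), Set.subset_union_left, ?_, fun i => ?_⟩⟩
  · rintro y (hy | hy)
    · exact sub_nb (by linarith) E hy
    · exact nb_mono (by linarith) subset_rfl hy.1
  obtain ⟨G, hG, hG'⟩ := col_split (h4 i)
  have key : Col q s μ (((S.A i w2 ∩ C ∩ (Nb s (E ∪ (Nb (s + M) E \ Nb s K)) \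
      (E ∪ (Nb (s + M) E \ Nb s K)))) \ V) ∩ G) := by
    refine col_local hμ (fun y => ∃ z ∈ Nb s E, Chain s G y z) ?_ fun x _ => ?_
    · intro x hx y hy hd
      have hc : Chain s G x y := (Chain.refl x).tail hx.2 hy.2 hd
      exact propext ⟨fun ⟨z, hz, h⟩ => ⟨z, hz, hc.symm.trans h⟩,
        fun ⟨z, hz, h⟩ => ⟨z, hz, hc.trans h⟩⟩
    · by_cases hx : ∃ z ∈ Nb s E, Chain s G x z
      · refine (hK i).2.mono le_rfl le_rfl le_rfl ?_
        rintro y ⟨⟨⟨⟨⟨ha, hc⟩, -, hn⟩, hv⟩, -⟩, he⟩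
        obtain ⟨z, hz, hch⟩ := he ▸ hx
        refine ⟨⟨⟨S.anti i h3 ha, hc⟩, ?_⟩, hv⟩
        by_contra hk
        refine hn (Or.inr ⟨?_, hk⟩)
        rw [add_comm]
        exact nb_step hz (hG y z (hch.mono (by linarith) subset_rfl))
      · refine (hK i).1.mono le_rfl le_rfl le_rfl ?_
        rintro y ⟨⟨⟨⟨⟨ha, hc⟩, ⟨z, hz, hd⟩, -⟩, hv⟩, -⟩, he⟩
        refine ⟨⟨⟨S.anti i h3 ha, hc⟩, fun hk => ?_⟩, hv⟩
        rcases hz with hz | hz
        · exact hx (he ▸ ⟨y, ⟨z, hz, hd⟩, Chain.refl y⟩)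
        · exact hz.2 ⟨y, hk, by rwa [dist_comm]⟩
  refine (col_union hs key hG').mono le_rfl le_rfl le_rfl fun y hy => ?_
  by_cases hyG : y ∈ G
  · exact Or.inl ⟨hy, hyG⟩
  · exact Or.inr ⟨hy.1.1.1, hyG⟩

end Pool.Agent.Apc.Dg
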