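import Pool.Agent.Lib.MP_4f4e79_gt.Dg.Multi
import Pool.Agent.Lib.MP_4f4e79_gt.Defs3

/-!
Hosts with property C and weak finite decomposition complexity lose one colour of the remainders
at the price of two thin sets; leaves of weak finite decomposition complexity end with two colours.
-/

namespace Pool.Agent.Apc.Dg

open Trap

variable {X : Type*} [PseudoMetricSpace X] {Ω ι : Type*} {q : ℕ}

theorem thin_of_diam {s M : ℝ} {P : Set X} (hM : 0 ≤ M) (h : ∀ x ∈ P, ∀ y ∈ P, dist x y ≤ M) :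
    Thin s M P := by
  intro x y hc
  rcases hc.eq_or_mem with rfl | hx
  · rwa [dist_self]
  · exact h x hx y (hc.mem hx)

theorem col_sum {n : ℕ} {s M : ℝ} (hM : 0 ≤ M) {P : ℕ → Set X} (c : ℕ)
    (h : ∀ a < c, Col n s M (P a)) : Col (n * c) s M {x | ∃ a < c, x ∈ P a} := by
  induction c with
  | zero => exact as_col_empty _ s hM fun x ⟨_, ha, _⟩ => by omega
  | succ c ih =>
    refine (col_add (ih fun a ha => h a (by omega)) (h c (Nat.lt_succ_self c))).mono le_rfl le_rfl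
      le_rfl fun x ⟨a, ha, hx⟩ => ?_
    rcases Nat.lt_succ_iff_lt_or_eq.1 ha with ha | rfl
    · exact Or.inl ⟨a, ha, hx⟩
    · exact Or.inr hx

theorem pieces {𝒰 : Set (Set X)} {r a s : ℝ} (h : RDisj r 𝒰) (hr : s + 2 * a < r) :
    ∃ τ : X → Set X, (∀ y ∈ Nb a (⋃₀ 𝒰), τ y ∈ 𝒰 ∧ y ∈ Nb a (τ y)) ∧
      ∀ y ∈ Nb a (⋃₀ 𝒰), ∀ z ∈ Nb a (⋃₀ 𝒰), dist y z ≤ s → τ y = τ z := by
  have : ∀ y, ∃ U, y ∈ Nb a (⋃₀ 𝒰) → U ∈ 𝒰 ∧ y ∈ Nb a U := by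
    intro y
    by_cases hy : y ∈ Nb a (⋃₀ 𝒰)
    · obtain ⟨z, ⟨U, hU, hz⟩, hd⟩ := hy
      exact ⟨U, fun _ => ⟨hU, z, hz, hd⟩⟩
    · exact ⟨∅, fun h => (hy h).elim⟩
  choose τ hτ using this
  refine ⟨τ, hτ, fun y hy z hz hd => ?_⟩
  by_contra hne
  obtain ⟨h1, u, hu, h2⟩ := hτ y hy
  obtain ⟨h3, v, hv, h4⟩ := hτ z hz
  linarith [h _ h1 _ h3 hne u hu v hv, dist_triangle4 u y z v, dist_comm u y]

theorem col_pieces {𝒰 : Set (Set X)} {n : ℕ} {r s M : ℝ} {P : Set X} (hM : 0 ≤ M)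
    (h : RDisj r 𝒰) (hr : s < r) (hU : ∀ U ∈ 𝒰, Col n s M (P ∩ U)) : Col n s M (P ∩ ⋃₀ 𝒰) := by
  have : ∀ y, y ∈ ⋃₀ 𝒰 → ∃ U ∈ 𝒰, y ∈ U := fun y hy => hy
  choose! τ h1 h2 using this
  refine col_local hM τ (fun y hy z hz hd => ?_) fun x hx =>
    (hU _ (h1 x hx.2)).mono le_rfl le_rfl le_rfl fun y hy => ⟨hy.1.1, hy.2 ▸ h2 y hy.1.2⟩
  by_contra hne
  linarith [h _ (h1 y hy.2) _ (h1 z hz.2) hne y (h2 y hy.2) z (h2 z hz.2)]

theorem side {A : ι → Set X} {𝒰 : Set (Set X)} {r a s M : ℝ} {H : Set X} (hM : 0 ≤ M)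
    (h : RDisj r 𝒰) (hr : s + 2 * a < r)
    (hU : ∀ U ∈ 𝒰, ∃ V, Col 2 s M V ∧ ∀ i, Col q s M ((A i ∩ (H ∩ Nb a U)) \ V)) :
    ∃ V, Col 2 s M V ∧ ∀ i, Col q s M ((A i ∩ (H ∩ Nb a (⋃₀ 𝒰))) \ V) := by
  obtain ⟨τ, h1, h2⟩ := pieces h hr
  choose! V hV hV' using hU
  refine ⟨{y | y ∈ Nb a (⋃₀ 𝒰) ∧ y ∈ V (τ y)}, col_local hM τ (fun y hy z hz => h2 y hy.1 z hz.1)
    fun x hx => (hV _ (h1 x hx.1).1).mono le_rfl le_rfl le_rfl fun y hy => hy.2 ▸ hy.1.2,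
    fun i => col_local hM τ (fun y hy z hz => h2 y hy.1.2.2 z hz.1.2.2) fun x hx =>
      (hV' _ (h1 x hx.1.2.2).1 i).mono le_rfl le_rfl le_rfl ?_⟩
  rintro y ⟨⟨⟨h3, h4, h5⟩, h6⟩, h7⟩
  exact ⟨⟨h3, h4, h7 ▸ (h1 y h5).2⟩, fun hv => h6 ⟨h5, h7 ▸ hv⟩⟩

theorem fdc_root (S : Sys X Ω ι q) (hq : 2 ≤ q) {ℋ : Set (Set X)} (hH : Apc1 ℋ)
    {𝒞 : Set (Set X)} (h : WFdc 𝒞) :
    ∀ a : ℝ, 0 ≤ a → Root S 2 {P | ∃ H ∈ ℋ, ∃ C ∈ 𝒞, P = H ∩ Nb a C} := by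
  induction h with
  | bdd h =>
    obtain ⟨M, hM⟩ := h
    intro a ha s _ w
    have h0 : 0 ≤ |M| + 2 * a := by positivity
    refine ⟨w, |M| + 2 * a, S.refl w, h0, ?_⟩
    rintro _ ⟨H, -, C, hC, rfl⟩
    refine ⟨H ∩ Nb a C, (col_one (thin_of_diam h0 ?_)).mono one_le_two le_rfl le_rfl subset_rfl,
      fun i => as_col_empty q s h0 fun y hy => hy.2 hy.1.2⟩
    rintro x ⟨-, u, hu, h1⟩ y ⟨-, v, hv, h2⟩
    linarith [hM C hC u hu v hv, dist_triangle4_right x y u v, le_abs_self M]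
  | dec c 𝒴 _ hcov ih =>
    classical
    intro a ha
    refine Multi.root (j := 2 * c) (c := c) (fun s hs w => ?_) (Bar.apc1_sub hH ?_) hq
    swap
    · rintro _ ⟨H, hH, C, -, rfl⟩
      exact ⟨H, hH, Set.inter_subset_left⟩
    have hr : 0 < s + 2 * (s + a) + 1 := by linarith
    obtain ⟨w', M, h1, hM, h2⟩ := ih _ hr (s + a) (by linarith) s hs w
    refine ⟨w', M, h1, hM, ?_⟩
    rintro _ ⟨H, hH, C, hC, rfl⟩
    obtain ⟨𝒰, h3, h4⟩ := hcov _ hr C hC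
    have key : ∀ b < c, ∃ V, Col 2 s M V ∧
        ∀ i, Col q s M ((S.A i w' ∩ (H ∩ Nb (s + a) (⋃₀ 𝒰 b))) \ V) := fun b hb =>
      side hM (h3 b hb).2.2 (lt_add_one _) fun U hU => h2 _ ⟨H, hH, U, (h3 b hb).1 hU, rfl⟩
    choose! V h5 h6 using key
    refine ⟨_, (col_sum hM c h5).mono (Nat.le_succ _) le_rfl le_rfl subset_rfl,
      fun b => {y | b < c ∧ y ∈ Nb a (⋃₀ 𝒰 b)}, ?_, fun b i => ?_⟩
    · rintro y ⟨-, z, hz, hd⟩
      obtain ⟨b, hb, U, hU, hzU⟩ := h4 z hz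
      exact ⟨b, by omega, hb, z, ⟨U, hU, hzU⟩, hd⟩
    by_cases hb : b < c
    · refine (h6 b hb i).mono le_rfl le_rfl le_rfl ?_
      rintro y ⟨⟨⟨hA, hyH, -⟩, hv⟩, z, hz, hd⟩
      exact ⟨⟨hA, hyH, nb_step hz.2 hd⟩, fun h => hv ⟨b, hb, h⟩⟩
    · exact as_col_empty q s hM fun y ⟨_, _, hz, _⟩ => hb hz.1

/-- The nonempty members lie in members of a family of weak finite decomposition complexity. -/
def InF (𝒳 : Set (Set X)) : Prop := ∃ 𝒞, WFdc 𝒞 ∧ ∀ P ∈ 𝒳, P.Nonempty → ∃ C ∈ 𝒞, P ⊆ C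

theorem host_root (S : Sys X Ω ι q) (hq : 2 ≤ q) {ℋ : Set (Set X)} (hH : Apc1 ℋ) (h : InF ℋ) :
    Root S 2 ℋ := by
  obtain ⟨𝒞, h1, h2⟩ := h
  intro s hs w
  obtain ⟨w', M, h3, hM, h4⟩ := fdc_root S hq hH h1 0 le_rfl s hs w
  refine ⟨w', M, h3, hM, fun P hP => ?_⟩
  rcases P.eq_empty_or_nonempty with rfl | hne
  · exact ⟨∅, as_col_empty 2 s hM fun _ h => h, fun i => as_col_empty q s hM fun y hy => hy.1.2⟩
  obtain ⟨C, hC, hPC⟩ := h2 P hP hne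
  obtain ⟨V, h5, h6⟩ := h4 _ ⟨P, hP, C, hC, rfl⟩
  exact ⟨V, h5, fun i => (h6 i).mono le_rfl le_rfl le_rfl fun y hy =>
    ⟨⟨hy.1.1, hy.1.2, sub_nb le_rfl C (hPC hy.1.2)⟩, hy.2⟩⟩

variable {J : Type*}

/-- Removal states: two thin sets in every host, finitely many blocks. -/
def St (J : Type*) (X : Type*) [PseudoMetricSpace X] (R : ℕ → ℝ) : Type _ :=
  {w : ℕ → J → Set X // ∃ (K : ℕ) (M : ℝ), 0 ≤ M ∧ (∀ i, K ≤ i → ∀ j x, x ∉ w i j) ∧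
    ∀ i j, Col 2 (R i) M (w i j)}

/-- Extension of a state in the blocks from `b` on. -/
def Lv {R : ℕ → ℝ} (b : ℕ) (w w' : St J X R) : Prop :=
  (∀ i j, w.1 i j ⊆ w'.1 i j) ∧ ∀ i < b, w'.1 i = w.1 i

/-- The remainder of a leaf. -/
def Rm {R : ℕ → ℝ} (L : ι → Set X) (host : ℕ → ι → J) (b : ℕ) (l : ι) (w : St J X R) : Set X :=
  {x | x ∈ L l ∧ ∀ i, b ≤ i → x ∉ w.1 i (host i l)}

/-- The remainders meet the members of `𝒞` in sets with `q` colours. -/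
def Tq (R : ℕ → ℝ) (L : ι → Set X) (host : ℕ → ι → J) (q b : ℕ) (𝒞 : Set (Set X)) : Prop :=
  ∀ (ρ : ℝ) (w : St J X R), ∃ w' M, Lv b w w' ∧ 0 ≤ M ∧
    ∀ l, ∀ C ∈ 𝒞, Col q ρ M (Rm L host b l w' ∩ C)

variable {R : ℕ → ℝ} {L : ι → Set X} {host : ℕ → ι → J} {H : ℕ → J → Set X}

theorem tq_step (hR : ∀ i, 0 ≤ R i) (hLH : ∀ i l, L l ⊆ H i (host i l))
    (hH : ∀ i, Apc1 (Set.range (H i)) ∧ InF (Set.range (H i))) (hq : 2 ≤ q) {b : ℕ}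
    {𝒞 : Set (Set X)} (h : Tq R L host (q + 1) (b + 1) 𝒞) : Tq R L host q b 𝒞 := by
  classical
  let S : Sys X (St J X R) (ι × 𝒞) q :=
    { le := Lv (b + 1)
      A := fun p w => Rm L host (b + 1) p.1 w ∩ p.2
      refl := fun w => ⟨fun _ _ => subset_rfl, fun _ _ => rfl⟩
      trans := fun h1 h2 => ⟨fun i j => (h1.1 i j).trans (h2.1 i j),
        fun i hi => (h2.2 i hi).trans (h1.2 i hi)⟩
      anti := fun _ h1 x hx => ⟨⟨hx.1.1, fun i hi hw => hx.1.2 i hi (h1.1 i _ hw)⟩, hx.2⟩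
      orc := fun ρ w => by
        obtain ⟨w', M, h1, h2, h3⟩ := h ρ w
        exact ⟨w', M, h1, h2, fun p => h3 p.1 p.2 p.2.2⟩ }
  intro ρ w
  obtain ⟨-, M0, hM0, -, hw⟩ := w.2
  have h0 := abs_nonneg ρ
  have h0' := le_abs_self ρ
  have hb := hR b
  obtain ⟨w', M, h1, hM, h2⟩ := host_root S hq (hH b).1 (hH b).2 (|ρ| + M0 + 2 * R b)
    (by linarith) w
  choose V hV hV' using fun j => h2 (H b j) ⟨j, rfl⟩
  obtain ⟨K', M', hM', hK', hw'⟩ := w'.2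
  refine ⟨⟨fun i j => if i = b then w'.1 i j ∪ V j else w'.1 i j, max K' (b + 1),
    M' + (M + 2 * M0 + 2 * R b), by linarith, fun i hi j x => ?_, fun i j => ?_⟩, M,
    ⟨fun i j => (h1.1 i j).trans ?_, fun i hi => ?_⟩, hM, fun l C hC => ?_⟩
  · dsimp only
    rw [if_neg (by omega)]
    exact hK' i (by omega) j x
  · dsimp only
    split_ifs with hi
    · subst hi
      rw [h1.2 i (Nat.lt_succ_self i)]
      exact (col_union hb (hw i j) ((hV j).mono le_rfl (by linarith) le_rfl subset_rfl)).mono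
        le_rfl le_rfl (by linarith) subset_rfl
    · exact (hw' i j).mono le_rfl le_rfl (by linarith) subset_rfl
  · dsimp only
    split_ifs
    · exact Set.subset_union_left
    · exact subset_rfl
  · rw [← h1.2 i (by omega)]
    funext j
    exact if_neg hi.ne
  · refine (hV' (host b l) (l, ⟨C, hC⟩)).mono le_rfl (by linarith) le_rfl ?_
    rintro x ⟨⟨h3, h4⟩, h5⟩
    refine ⟨⟨⟨⟨h3, fun i hi => ?_⟩, h5⟩, hLH b l h3⟩, fun hv => ?_⟩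
    · have := h4 i (by omega)
      dsimp only at this
      rwa [if_neg (by omega)] at this
    · have := h4 b le_rfl
      dsimp only at this
      rw [if_pos rfl] at this
      exact this (Or.inr hv)

theorem tq_down (hR : ∀ i, 0 ≤ R i) (hLH : ∀ i l, L l ⊆ H i (host i l))
    (hH : ∀ i, Apc1 (Set.range (H i)) ∧ InF (Set.range (H i))) {𝒞 : Set (Set X)} (n : ℕ) :
    ∀ b, Tq R L host (n + 2) (b + n) 𝒞 → Tq R L host 2 b 𝒞 := by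
  induction n with
  | zero => exact fun _ h => h
  | succ n ih => exact fun b h => ih b (tq_step hR hLH hH (by omega) h)

theorem tq_fdc (hR : ∀ i, 0 ≤ R i) (hLH : ∀ i l, L l ⊆ H i (host i l))
    (hH : ∀ i, Apc1 (Set.range (H i)) ∧ InF (Set.range (H i))) {𝒞 : Set (Set X)} (h : WFdc 𝒞) :
    ∀ b, Tq R L host 2 b 𝒞 := by
  induction h with
  | bdd h =>
    obtain ⟨M, hM⟩ := h
    intro b ρ w
    exact ⟨w, |M|, ⟨fun _ _ => subset_rfl, fun _ _ => rfl⟩, abs_nonneg M, fun l C hC =>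
      (col_one (thin_of_diam (abs_nonneg M) fun x hx y hy =>
        (hM C hC x hx.2 y hy.2).trans (le_abs_self M))).mono one_le_two le_rfl le_rfl subset_rfl⟩
  | dec c 𝒴 _ hcov ih =>
    intro b
    refine tq_down hR hLH hH (2 * c) b fun ρ w => ?_
    have hr : 0 < |ρ| + 1 := by positivity
    obtain ⟨w', M, h1, hM, h2⟩ := ih _ hr (b + 2 * c) ρ w
    refine ⟨w', M, h1, hM, fun l C hC => ?_⟩
    obtain ⟨𝒰, h3, h4⟩ := hcov _ hr C hC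
    refine (col_sum hM c fun a ha => col_pieces hM (h3 a ha).2.2 (by linarith [le_abs_self ρ])
      fun U hU => h2 l U ((h3 a ha).1 hU)).mono (by omega) le_rfl le_rfl fun y hy => ?_
    obtain ⟨a, ha, U, hU, hyU⟩ := h4 y hy.2
    exact ⟨a, ha, hy.1, U, hU, hyU⟩

/-- Two thin sets in every host of finitely many blocks cut all leaves down to two colours. -/
theorem core2 (hR : ∀ i, 0 ≤ R i) (hLH : ∀ i l, L l ⊆ H i (host i l))
    (hH : ∀ i, Apc1 (Set.range (H i)) ∧ InF (Set.range (H i))) (hL : InF (Set.range L)) (r : ℝ) :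
    ∃ (K : ℕ) (M : ℝ) (W : ℕ → J → Set X), 0 ≤ M ∧ (∀ i j, Col 2 (R i) M (W i j)) ∧
      ∀ l, Col 2 r M {x | x ∈ L l ∧ ∀ i < K, x ∉ W i (host i l)} := by
  obtain ⟨𝒞, h1, h2⟩ := hL
  obtain ⟨⟨W, K, M', hM', h3, h4⟩, M, -, hM, h5⟩ := tq_fdc hR hLH hH h1 0 r
    ⟨fun _ _ => ∅, 0, 0, le_rfl, fun _ _ _ _ h => h, fun i _ => as_col_empty 2 _ le_rfl fun _ h => h⟩
  refine ⟨K, M + M', W, by linarith, fun i j => (h4 i j).mono le_rfl le_rfl (by linarith) subset_rfl,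
    fun l => ?_⟩
  rcases (L l).eq_empty_or_nonempty with he | hne
  · exact as_col_empty 2 r (by linarith) fun x hx => (he ▸ hx.1 : x ∈ (∅ : Set X))
  obtain ⟨C, hC, hLC⟩ := h2 _ ⟨l, rfl⟩ hne
  refine (h5 l C hC).mono le_rfl le_rfl (by linarith) fun x hx => ⟨⟨hx.1, fun i _ => ?_⟩, hLC hx.1⟩
  by_cases hi : i < K
  · exact hx.2 i hi
  · exact h3 i (not_lt.1 hi) _ x

end Pool.Agent.Apc.Dg
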