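import Pool.Agent.Lib.MP_4f4e79_gt.Dg.Wall

/-!
Sets with several regions: a wall loses one region, double points of walls lose two regions, so
a host with property C loses one region, until two sides are left.
-/

namespace Pool.Agent.Apc.Dg

open Trap

variable {X : Type*} [PseudoMetricSpace X] {Ω ι : Type*} {q : ℕ}

/-- `P` is covered by `c` regions near each of which all `A i` have `q` colours. -/
def Reg (A : ι → Set X) (q c : ℕ) (s t M : ℝ) (P : Set X) : Prop :=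
  ∃ K : ℕ → Set X, (∀ x ∈ P, ∃ a < c, x ∈ K a) ∧ ∀ a i, Col q s M (A i ∩ Nb t (K a))

variable {A A' : ι → Set X} {c : ℕ} {s t M : ℝ} {P : Set X}

theorem Reg.mono {s' t' M' : ℝ} {P' : Set X} (h : Reg A q c s t M P) (hA : ∀ i, A' i ⊆ A i)
    (hs : s' ≤ s) (ht : t' ≤ t) (hM : M ≤ M') (hP : P' ⊆ P) : Reg A' q c s' t' M' P' := by
  obtain ⟨K, h1, h2⟩ := h
  exact ⟨K, fun x hx => h1 x (hP hx), fun a i => (h2 a i).mono le_rfl hs hM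
    (Set.inter_subset_inter (hA i) (nb_mono ht subset_rfl))⟩

theorem Reg.union {M' : ℝ} {P' : Set X} (hs : 0 ≤ s) (h : Reg A q c s t M P)
    (h' : Reg A q c (M + 2 * s) t M' P') : Reg A q c s t (M' + 2 * M + 2 * s) (P ∪ P') := by
  obtain ⟨K, h1, h2⟩ := h
  obtain ⟨K', h3, h4⟩ := h'
  refine ⟨fun a => K a ∪ K' a, ?_, fun a i =>
    (col_union hs (h2 a i) (h4 a i)).mono le_rfl le_rfl le_rfl ?_⟩
  · rintro x (hx | hx)
    · obtain ⟨a, ha, h⟩ := h1 x hx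
      exact ⟨a, ha, Or.inl h⟩
    · obtain ⟨a, ha, h⟩ := h3 x hx
      exact ⟨a, ha, Or.inr h⟩
  · rintro x ⟨hx, z, hz | hz, hd⟩
    · exact Or.inl ⟨hx, z, hz, hd⟩
    · exact Or.inr ⟨hx, z, hz, hd⟩

theorem reg_glue {I : Type*} (hM : 0 ≤ M) (τ : X → I)
    (hτ : ∀ x ∈ P, ∀ y ∈ P, dist x y ≤ s + 2 * t → τ x = τ y)
    (h : ∀ b, Reg A q c s t M {y | y ∈ P ∧ τ y = b}) : Reg A q c s t M P := by
  choose K h1 h2 using h
  refine ⟨fun a => {y | y ∈ P ∧ y ∈ K (τ y) a}, fun x hx => ?_, fun a i => ?_⟩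
  · obtain ⟨a, ha, h⟩ := h1 _ x ⟨hx, rfl⟩
    exact ⟨a, ha, hx, h⟩
  have hp : ∀ z, ∃ y, z ∈ Nb t {y | y ∈ P ∧ y ∈ K (τ y) a} →
      (y ∈ P ∧ y ∈ K (τ y) a) ∧ dist z y ≤ t := by
    intro z
    by_cases hz : z ∈ Nb t {y | y ∈ P ∧ y ∈ K (τ y) a}
    · obtain ⟨y, hy⟩ := hz
      exact ⟨y, fun _ => hy⟩
    · exact ⟨z, fun h => (hz h).elim⟩
  choose p hp using hp
  refine col_local hM (fun z => τ (p z)) (fun x hx y hy hd => hτ _ (hp x hx.2).1.1 _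
    (hp y hy.2).1.1 ?_) fun x _ => (h2 (τ (p x)) a i).mono le_rfl le_rfl le_rfl ?_
  · linarith [dist_triangle4 (p x) x y (p y), dist_comm (p x) x, (hp x hx.2).2, (hp y hy.2).2]
  · rintro y ⟨hy, e⟩
    exact ⟨hy.1, p y, e ▸ (hp y hy.2).1.2, (hp y hy.2).2⟩

theorem Reg.cut {x μ : ℝ} (hs : 0 ≤ s) (ht : 0 ≤ t) (hx : 0 ≤ x) (hμ : 0 ≤ μ) (hM : 0 ≤ M)
    (h : Reg A q (c + 2) s (t + x) μ P) (ho : ∀ i, Col (q + 1) (μ + 2 * s) M (A i)) (E : Set X) :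
    ∃ B, E ⊆ B ∧ B ⊆ Nb (2 * t + x + M) E ∧
      Reg A q (c + 1) s t (M + 2 * μ + 2 * s) (P ∩ (Nb x B \ B)) := by
  classical
  obtain ⟨K, h1, h2⟩ := h
  obtain ⟨B, hB⟩ : ∃ B, B = E ∪ (Nb (2 * t + x + M) E \ Nb x (K (c + 1))) := ⟨_, rfl⟩
  refine ⟨B, hB ▸ Set.subset_union_left, ?_,
    fun a => if a = 0 then (Nb x B \ B) ∩ (Nb x E ∪ K 0) else K a, ?_, fun a i => ?_⟩
  · rw [hB]
    rintro y (hy | hy)
    · exact sub_nb (by linarith) E hy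
    · exact hy.1
  · rintro y ⟨hy, hw⟩
    by_cases hE : y ∈ Nb x E
    · exact ⟨0, by omega, hw, Or.inl hE⟩
    obtain ⟨a, ha, hK⟩ := h1 y hy
    have : a ≠ c + 1 := by
      rintro rfl
      obtain ⟨z, hz, hd⟩ := hw.1
      rw [hB] at hz
      rcases hz with hz | hz
      · exact hE ⟨z, hz, hd⟩
      · exact hz.2 ⟨y, hK, by rwa [dist_comm]⟩
    refine ⟨a, by omega, ?_⟩
    dsimp only
    split_ifs with h0
    · exact ⟨hw, Or.inr (h0 ▸ hK)⟩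
    · exact hK
  dsimp only
  split_ifs
  swap
  · exact (h2 a i).mono le_rfl le_rfl (by linarith)
      (Set.inter_subset_inter_right _ (nb_mono (by linarith) subset_rfl))
  obtain ⟨G, hG, hG'⟩ := col_split (ho i)
  have key : Col q s μ (A i ∩ Nb t ((Nb x B \ B) ∩ (Nb x E ∪ K 0)) ∩ G) := by
    refine col_local hμ (fun y => ∃ z ∈ Nb (t + x) E, Chain s G y z) ?_ fun y0 _ => ?_
    · intro y hy y' hy' hd
      have hc : Chain s G y y' := (Chain.refl y).tail hy.2 hy'.2 hd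
      exact propext ⟨fun ⟨z, hz, h⟩ => ⟨z, hz, hc.symm.trans h⟩,
        fun ⟨z, hz, h⟩ => ⟨z, hz, hc.trans h⟩⟩
    · by_cases h0 : ∃ z ∈ Nb (t + x) E, Chain s G y0 z
      · refine (h2 (c + 1) i).mono le_rfl le_rfl le_rfl ?_
        rintro y ⟨⟨⟨ha, u, ⟨⟨-, hn⟩, -⟩, hd⟩, -⟩, he⟩
        obtain ⟨z, hz, hch⟩ := he ▸ h0
        refine ⟨ha, nb_step ?_ hd⟩
        by_contra hk
        refine hn (hB ▸ Or.inr ⟨nb_mono (by linarith) subset_rfl (nb_step (nb_step hz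
          (hG y z (hch.mono (by linarith) subset_rfl))) (dist_comm y u ▸ hd)), hk⟩)
      · refine (h2 0 i).mono le_rfl le_rfl le_rfl ?_
        rintro y ⟨⟨⟨ha, u, ⟨-, hu | hu⟩, hd⟩, -⟩, he⟩
        · exact (h0 (he ▸ ⟨y, nb_step hu hd, Chain.refl y⟩)).elim
        · exact ⟨ha, u, hu, by linarith⟩
  refine (col_union hs key hG').mono le_rfl le_rfl le_rfl fun y hy => ?_
  by_cases hyG : y ∈ G
  · exact Or.inl ⟨hy, hyG⟩
  · exact Or.inr ⟨hy.1, hyG⟩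

/-- After removing `j` thin sets, a member has `c` regions with `q` colours. -/
def Multi (S : Sys X Ω ι q) (j c : ℕ) (𝒞 : Set (Set X)) : Prop :=
  ∀ s : ℝ, 0 ≤ s → ∀ w, ∃ w' M, S.le w w' ∧ 0 ≤ M ∧ ∀ C ∈ 𝒞, ∃ V, Col j s M V ∧
    Reg (fun i => (S.A i w' ∩ C) \ V) q c s s M C

/-- The invariant after `i` steps. -/
def InvM (S : Sys X Ω ι q) (j c : ℕ) (𝒞 : Set (Set X)) (θ : ℝ) (i : ℕ) (D : ℕ → ℝ) (x M : ℝ)
    (w : Ω) : Prop :=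
  ∀ C ∈ 𝒞, ∃ V, Col j θ M V ∧ ∀ E : ℕ → Set X, ∃ B : ℕ → Set X, (∀ n, E n ⊆ B n) ∧
    (∀ n, i ≤ n → Nb (5 * θ) (B n) ⊆ Nb x (E n)) ∧ (∀ n < i, B n ⊆ Nb (D n) (E n)) ∧
    Reg (fun l => (S.A l w ∩ C) \ V) q c θ θ M {y | y ∈ C ∧ Dbl (5 * θ) B 0 y ∧ ¬ Dbl x E i y}

theorem invM_step {S : Sys X Ω ι q} {j : ℕ} {𝒞 : Set (Set X)} (h : Multi S j (c + 3) 𝒞)
    {θ x M : ℝ} (hθ : 0 ≤ θ) (hx : 0 ≤ x) (hM : 0 ≤ M) (w : Ω) :
    ∃ x' M' w', 0 ≤ x' ∧ 0 ≤ M' ∧ S.le w w' ∧ ∀ (i : ℕ) (D : ℕ → ℝ), D i = x' →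
      InvM S j (c + 1) 𝒞 θ i D x M w → InvM S j (c + 1) 𝒞 θ (i + 1) D x' M' w' := by
  classical
  obtain ⟨s, hs⟩ : ∃ s, s = M + 2 * θ := ⟨_, rfl⟩
  have hs0 : 0 ≤ s := by linarith
  obtain ⟨σ, hσ⟩ : ∃ σ, σ = s + 2 * (θ + x) := ⟨_, rfl⟩
  have hσ0 : 0 ≤ σ := by linarith
  obtain ⟨w1, μ1, hw1, hμ1, h1⟩ := h (s + θ + 2 * x + σ) (by linarith) w
  obtain ⟨w2, M1, hw2, hM1, o1⟩ := S.orc (μ1 + 2 * s) w1
  obtain ⟨w3, M2, hw3, hM2, o2⟩ := S.orc (M1 + 2 * μ1 + 2 * s + 2 * s) w2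
  obtain ⟨x', hx'⟩ : ∃ x', x' = 6 * x + 3 * σ + 4 * θ + M1 + M2 := ⟨_, rfl⟩
  refine ⟨x', M2 + 2 * (M1 + 2 * μ1 + 2 * s) + 2 * s + 2 * M + 2 * θ, w3, by linarith, by linarith,
    S.trans hw1 (S.trans hw2 hw3), fun i D hD hinv C hC => ?_⟩
  obtain ⟨V0, hV0, h2⟩ := hinv C hC
  obtain ⟨V1, hV1, h3⟩ := h1 C hC
  refine ⟨V0 ∪ V1, col_union hθ hV0 (hV1.mono le_rfl (by linarith) (by linarith) subset_rfl),
    fun E => ?_⟩
  have r1 : Reg (fun l => (S.A l w3 ∩ C) \ V1) q (c + 1 + 2) s (θ + x + (x + σ)) μ1 C :=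
    h3.mono (fun l y hy => ⟨⟨S.anti l (S.trans hw2 hw3) hy.1.1, hy.1.2⟩, hy.2⟩) (by linarith)
      (by linarith) le_rfl subset_rfl
  choose B1 hB1 hB1' hB1c using fun n => r1.cut hs0 (by linarith) (by linarith) hμ1 hM1
    (fun l => (o1 l).mono le_rfl le_rfl le_rfl fun y hy => S.anti l hw3 hy.1.1) (E n)
  have thick : ∀ b, ∀ y ∈ Nb x (Nb σ (B1 b)) \ Nb σ (B1 b), ∀ z, dist z y ≤ σ →
      z ∈ Nb x' (E b) \ E b := fun b y hy z hd =>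
    ⟨nb_nb (hB1' b) (by linarith) (nb_step (nb_nb (t := x + σ) subset_rfl le_rfl hy.1) hd),
      fun hz => hy.2 ⟨z, hB1 b hz, by rwa [dist_comm]⟩⟩
  obtain ⟨P, hP⟩ : ∃ P : Set X, P = {y | y ∈ C ∧ (∃ b, i < b ∧
    y ∈ Nb x (Nb σ (B1 b)) \ Nb σ (B1 b)) ∧ ¬ Dbl x' E (i + 1) y} := ⟨_, rfl⟩
  have r2 : Reg (fun l => (S.A l w3 ∩ C) \ V1) q (c + 2) s (θ + x) (M1 + 2 * μ1 + 2 * s) P := by
    have : ∀ y ∈ P, ∃ b, i < b ∧ y ∈ Nb x (Nb σ (B1 b)) \ Nb σ (B1 b) := fun y hy => (hP ▸ hy).2.1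
    choose! τ hτ using this
    refine reg_glue (by linarith) τ (fun y hy z hz hd => ?_) fun b =>
      (hB1c b).mono (fun _ => subset_rfl) le_rfl le_rfl le_rfl ?_
    · by_contra hne
      exact (hP ▸ hy).2.2 ⟨τ y, τ z, hne, (hτ y hy).1, (hτ z hz).1,
        thick _ y (hτ y hy).2 y (by rwa [dist_self]), thick _ z (hτ z hz).2 y (hσ ▸ hd)⟩
    · rintro y ⟨hy, rfl⟩
      exact ⟨(hP ▸ hy).1, nb_nb subset_rfl le_rfl (hτ y hy).2.1,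
        fun hb => (hτ y hy).2.2 (sub_nb hσ0 _ hb)⟩
  obtain ⟨Ed, hEd, hEd', r3⟩ := r2.cut hs0 hθ hx (by linarith) hM2
    (fun l => (o2 l).mono le_rfl le_rfl le_rfl fun y hy => hy.1.1) (E i)
  obtain ⟨E', hE'⟩ : ∃ E' : ℕ → Set X, E' = fun n =>
    if n = i then Ed else if i < n then Nb σ (B1 n) else E n := ⟨_, rfl⟩
  have e1 : E' i = Ed := by simp [hE']
  have e2 : ∀ n, i < n → E' n = Nb σ (B1 n) := fun n hn => by simp [hE', hn, hn.ne']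
  have e3 : ∀ n, n < i → E' n = E n := fun n hn => by simp [hE', hn.ne, hn.not_gt]
  obtain ⟨B, hB, hB', hB'', hBc⟩ := h2 E'
  refine ⟨B, fun n => Set.Subset.trans ?_ (hB n), fun n hn => (hB' n (by omega)).trans ?_,
    fun n hn => ?_, ?_⟩
  · rcases lt_trichotomy n i with hn | rfl | hn
    · rw [e3 n hn]
    · rwa [e1]
    · rw [e2 n hn]
      exact (hB1 n).trans (sub_nb hσ0 _)
  · rw [e2 n hn]
    exact nb_nb (nb_nb (hB1' n) le_rfl) (by linarith)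
  · rcases Nat.lt_succ_iff_lt_or_eq.1 hn with hn | rfl
    · exact e3 n hn ▸ hB'' n hn
    · refine ((sub_nb (by linarith) _).trans (hB' n le_rfl)).trans ?_
      rw [e1, hD]
      exact nb_nb hEd' (by linarith)
  refine ((hBc.mono (A' := fun l => (S.A l w3 ∩ C) \ (V0 ∪ V1)) (fun l y hy =>
    ⟨⟨S.anti l (S.trans hw1 (S.trans hw2 hw3)) hy.1.1, hy.1.2⟩, fun hv => hy.2 (Or.inl hv)⟩)
    le_rfl le_rfl le_rfl subset_rfl).union hθ (r3.mono (fun l y hy =>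
      ⟨hy.1, fun hv => hy.2 (Or.inr hv)⟩) hs.ge le_rfl le_rfl subset_rfl)).mono
    (fun _ => subset_rfl) le_rfl le_rfl le_rfl ?_
  rintro y ⟨h4, h5, h6⟩
  by_cases h8 : Dbl x E' i y
  swap
  · exact Or.inl ⟨h4, h5, h8⟩
  obtain ⟨a, b, hab, ha, hb, hya, hyb⟩ := h8
  rcases ha.eq_or_lt with rfl | ha
  · exact Or.inr ⟨hP ▸ ⟨h4, ⟨b, by omega, e2 b (by omega) ▸ hyb⟩, h6⟩, e1 ▸ hya⟩
  rcases hb.eq_or_lt with rfl | hb
  · exact Or.inr ⟨hP ▸ ⟨h4, ⟨a, ha, e2 a ha ▸ hya⟩, h6⟩, e1 ▸ hyb⟩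
  exact (h6 ⟨a, b, hab, ha, hb, thick a y (e2 a ha ▸ hya) y (by rwa [dist_self]),
    thick b y (e2 b hb ▸ hyb) y (by rwa [dist_self])⟩).elim

theorem Multi.less {S : Sys X Ω ι q} {j : ℕ} {𝒞 : Set (Set X)} (h : Multi S j (c + 3) 𝒞)
    (hC : Apc1 𝒞) (hq : 2 ≤ q) : Multi S j (c + 2) 𝒞 := by
  classical
  intro θ hθ w
  have hstep : ∀ p : {p : ℝ × ℝ × Ω // 0 ≤ p.1 ∧ 0 ≤ p.2.1},
      ∃ p' : {p : ℝ × ℝ × Ω // 0 ≤ p.1 ∧ 0 ≤ p.2.1}, S.le p.1.2.2 p'.1.2.2 ∧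
        ∀ (i : ℕ) (D : ℕ → ℝ), D i = p'.1.1 → InvM S j (c + 1) 𝒞 θ i D p.1.1 p.1.2.1 p.1.2.2 →
          InvM S j (c + 1) 𝒞 θ (i + 1) D p'.1.1 p'.1.2.1 p'.1.2.2 := by
    intro p
    obtain ⟨x', M', w', h1, h2, h3, h4⟩ := invM_step h hθ p.2.1 p.2.2 p.1.2.2
    exact ⟨⟨(x', M', w'), h1, h2⟩, h3, h4⟩
  choose F hF hF' using hstep
  let t : ℕ → {p : ℝ × ℝ × Ω // 0 ≤ p.1 ∧ 0 ≤ p.2.1} := fun n =>
    Nat.rec ⟨(5 * θ, 0, w), by linarith, le_rfl⟩ (fun _ p => F p) n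
  let D : ℕ → ℝ := fun n => (t (n + 1)).1.1
  have hD : ∀ n, 0 ≤ D n := fun n => (t (n + 1)).2.1
  have ht : ∀ n, S.le w (t n).1.2.2 ∧
      InvM S j (c + 1) 𝒞 θ n D (t n).1.1 (t n).1.2.1 (t n).1.2.2 := by
    intro n
    induction n with
    | zero =>
      exact ⟨S.refl w, fun C _ => ⟨∅, as_col_empty j θ le_rfl fun _ h => h, fun E =>
        ⟨E, fun _ => subset_rfl, fun _ _ => subset_rfl, fun _ hn => by omega, fun _ => ∅,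
          fun y hy => (hy.2.2 hy.2.1).elim,
          fun _ _ => as_col_empty q θ le_rfl fun y ⟨_, _, hz, _⟩ => hz⟩⟩⟩
    | succ n ih => exact ⟨S.trans ih.1 (hF _), hF' _ n D rfl ih.2⟩
  obtain ⟨k, M0, hk⟩ := hC fun n => θ + 2 * (3 * θ + D n)
  obtain ⟨hw, hinv⟩ := ht k
  have hM1 := (t k).2.2
  generalize (t k).1.1 = x at hinv
  generalize (t k).1.2.1 = M1 at hinv hM1
  generalize (t k).1.2.2 = w' at hinv hw
  have hDs : ∀ n < k, D n ≤ ∑ n ∈ Finset.range k, D n := fun n hn =>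
    Finset.single_le_sum (fun n _ => hD n) (Finset.mem_range.2 hn)
  have hD0 : 0 ≤ ∑ n ∈ Finset.range k, D n := Finset.sum_nonneg fun n _ => hD n
  generalize ∑ n ∈ Finset.range k, D n = Ds at hDs hD0
  have h0 := abs_nonneg M0
  have h0' := le_abs_self M0
  refine ⟨w', M1 + |M0| + 2 * (3 * θ + Ds), hw, by linarith, fun C hC => ?_⟩
  obtain ⟨V, hV, h1⟩ := hinv C hC
  obtain ⟨T, hT, hT'⟩ := hk C hC
  obtain ⟨B, hB, hB', hB'', K, hK, hK'⟩ := h1 fun n => if n < k then T n else ∅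
  have off := col_off (C := C) (B := B) (M := M1 + |M0| + 2 * (3 * θ + Ds)) hθ (by linarith)
    (fun n => ?_) fun y hy => ?_
  rotate_left
  · by_cases hn : n < k
    · have h2 := hB'' n hn
      rw [if_pos hn] at h2
      exact (thin_nb (by linarith [hD n]) (hT n hn)).mono le_rfl (by linarith [hDs n hn])
        (nb_nb h2 le_rfl)
    · refine (thin_empty θ (by linarith)).mono le_rfl le_rfl fun y hy => ?_
      obtain ⟨z, hz, -⟩ := hB' n (by omega) (nb_mono (by linarith) subset_rfl hy)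
      rwa [if_neg hn] at hz
  · obtain ⟨n, hn, hy⟩ := hT' y hy
    exact ⟨n, hB n (by rwa [if_pos hn])⟩
  generalize e : {z | ∃ a b, a ≠ b ∧ z ∈ Nb (4 * θ) (B a) \ Nb θ (B a) ∧
    z ∈ Nb (4 * θ) (B b) \ Nb θ (B b)} = Kd at off
  refine ⟨V, hV.mono le_rfl le_rfl (by linarith) subset_rfl,
    fun a => if a = c + 1 then (Nb θ Kd)ᶜ else K a, fun y hy => ?_, fun a l => ?_⟩
  · by_cases h2 : y ∈ Nb θ Kd
    swap
    · exact ⟨c + 1, by omega, by simpa only [if_true, Set.mem_compl_iff] using h2⟩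
    obtain ⟨z, hz, hd⟩ := h2
    rw [← e] at hz
    obtain ⟨a, b, hab, ha, hb⟩ := hz
    have key : ∀ c, z ∈ Nb (4 * θ) (B c) \ Nb θ (B c) → y ∈ Nb (5 * θ) (B c) \ B c :=
      fun c hc => ⟨nb_mono (by linarith) subset_rfl (nb_step hc.1 hd),
        fun hy => hc.2 ⟨y, hy, by rwa [dist_comm]⟩⟩
    obtain ⟨a', ha', h3⟩ := hK y ⟨hy, ⟨a, b, hab, Nat.zero_le _, Nat.zero_le _, key a ha, key b hb⟩,
      by
        rintro ⟨c, -, -, hc, -, ⟨⟨u, hu, -⟩, -⟩, -⟩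
        simp only [if_neg (not_lt.2 hc)] at hu
        exact hu⟩
    exact ⟨a', by omega, by simpa only [if_neg ha'.ne] using h3⟩
  · dsimp only
    split_ifs
    · exact off.mono hq le_rfl le_rfl fun y ⟨hy, z, hz, hd⟩ =>
        ⟨hy.1.2, fun hk => hz ⟨y, hk, by rwa [dist_comm]⟩⟩
    · exact (hK' a l).mono le_rfl le_rfl (by linarith) subset_rfl

theorem Multi.root {S : Sys X Ω ι q} {j : ℕ} {𝒞 : Set (Set X)} (h : Multi S (j + 1) (c + 2) 𝒞)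
    (hC : Apc1 𝒞) (hq : 2 ≤ q) : Root S 2 𝒞 := by
  induction c with
  | succ c ih => exact ih (h.less hC hq)
  | zero =>
    refine Two.root (j := j) (fun s hs w => ?_) hC hq
    obtain ⟨w', M, h1, h2, h3⟩ := h s hs w
    refine ⟨w', M, h1, h2, fun C hC => ?_⟩
    obtain ⟨V, h4, K, h5, h6⟩ := h3 C hC
    refine ⟨V, K 1, h4, fun i => ⟨(h6 0 i).mono le_rfl le_rfl le_rfl fun y hy => ?_,
      (h6 1 i).mono le_rfl le_rfl le_rfl fun y hy => ⟨⟨hy.1.1, hy.2⟩, hy.1.2⟩⟩⟩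
    obtain ⟨a, ha, h7⟩ := h5 y hy.1.1.2
    obtain rfl | rfl : a = 0 ∨ a = 1 := by omega
    · exact ⟨⟨hy.1.1, hy.2⟩, sub_nb hs _ h7⟩
    · exact (hy.1.2 h7).elim

end Pool.Agent.Apc.Dg
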