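import Pool.Agent.Lib.MP_4f4e79_gt.Dg.Basic

/-!
Walls grown from a graded cover: one wall avoids the last removed thin set, the later walls are
replaced by separators, and the double points of the walls carry `q` colours.
-/

namespace Pool.Agent.Apc.Dg

open Trap

variable {X : Type*} [PseudoMetricSpace X] {Ω ι : Type*} {q : ℕ}

/-- `y` lies on two walls of thickness `x` with index at least `i`. -/
def Dbl (x : ℝ) (E : ℕ → Set X) (i : ℕ) (y : X) : Prop :=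
  ∃ a b, a ≠ b ∧ i ≤ a ∧ i ≤ b ∧ y ∈ Nb x (E a) \ E a ∧ y ∈ Nb x (E b) \ E b

/-- The invariant after `i` steps. -/
def Inv (S : Sys X Ω ι q) (j : ℕ) (𝒞 : Set (Set X)) (θ : ℝ) (i : ℕ) (D : ℕ → ℝ) (x M : ℝ)
    (w : Ω) : Prop :=
  ∀ C ∈ 𝒞, ∃ V, Col j θ M V ∧ ∀ E : ℕ → Set X, ∃ B : ℕ → Set X, (∀ n, E n ⊆ B n) ∧
    (∀ n, i ≤ n → Nb (5 * θ) (B n) ⊆ Nb x (E n)) ∧ (∀ n < i, B n ⊆ Nb (D n) (E n)) ∧
    ∀ l, Col q θ M ({y | y ∈ S.A l w ∩ C ∧ Dbl (5 * θ) B 0 y ∧ ¬ Dbl x E i y} \ V)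

theorem dodge {G : Set X} {σ M x : ℝ} (hG : Thin σ M G) (hM : 0 ≤ M) (hx0 : 0 ≤ x) (hx : x ≤ σ)
    (E : Set X) : ∃ E', E ⊆ E' ∧ E' ⊆ Nb (M + x) E ∧ ∀ y ∈ Nb x E' \ E', y ∉ G := by
  refine ⟨E ∪ {y | ∃ z ∈ Nb x E, z ∈ G ∧ Chain σ G z y}, Set.subset_union_left, ?_, ?_⟩
  · rintro y (hy | ⟨z, hz, -, hc⟩)
    · exact sub_nb (by linarith) E hy
    · exact nb_step hz (hG y z hc.symm)
  · rintro y ⟨⟨z, hz | ⟨u, hu, huG, hc⟩, hd⟩, hn⟩ hy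
    · exact hn (Or.inr ⟨y, ⟨z, hz, hd⟩, hy, Chain.refl y⟩)
    · exact hn (Or.inr ⟨u, hu, huG, hc.tail (hc.mem huG) hy (by rw [dist_comm]; linarith)⟩)

theorem inv_step {S : Sys X Ω ι q} {j : ℕ} {𝒞 : Set (Set X)} (h : Sep S (j + 1) 𝒞) {θ x M : ℝ}
    (hθ : 0 ≤ θ) (hx : 0 ≤ x) (hM : 0 ≤ M) (w : Ω) :
    ∃ x' M' w', 0 ≤ x' ∧ 0 ≤ M' ∧ S.le w w' ∧ ∀ (i : ℕ) (D : ℕ → ℝ), D i = x' →
      Inv S j 𝒞 θ i D x M w → Inv S j 𝒞 θ (i + 1) D x' M' w' := by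
  classical
  obtain ⟨s, hs⟩ : ∃ s, s = M + 2 * θ := ⟨_, rfl⟩
  have hs0 : 0 ≤ s := by linarith
  obtain ⟨w', M1, hw, hM1, h1⟩ := h (x + 2 * s) (by linarith) w
  refine ⟨2 * x + 2 * s + M1, M1 + 2 * M + 2 * θ, w', by linarith, by linarith, hw,
    fun i D hD hinv C hC => ?_⟩
  obtain ⟨V0, hV0, h2⟩ := hinv C hC
  obtain ⟨V1, hV1, h3⟩ := h1 C hC
  obtain ⟨G, hG, hV1'⟩ := col_split hV1
  refine ⟨V0 ∪ (V1 \ G), col_union hθ hV0 (hV1'.mono le_rfl (by linarith) le_rfl subset_rfl),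
    fun E => ?_⟩
  choose B1 hB1 hB1' hB1c using fun n => h3 (E n)
  obtain ⟨Ed, hEd, hEd', hEdG⟩ := dodge hG hM1 hx (by linarith) (E i)
  obtain ⟨E', hE'⟩ : ∃ E' : ℕ → Set X, E' = fun n =>
    if n = i then Ed else if i < n then Nb s (B1 n) else E n := ⟨_, rfl⟩
  have e1 : E' i = Ed := by simp [hE']
  have e2 : ∀ n, i < n → E' n = Nb s (B1 n) := fun n hn => by simp [hE', hn, hn.ne']
  have e3 : ∀ n, n < i → E' n = E n := fun n hn => by simp [hE', hn.ne, hn.not_gt]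
  obtain ⟨B, hB, hB', hB'', hBc⟩ := h2 E'
  have thick : ∀ b, i < b → ∀ y ∈ Nb x (E' b) \ E' b, ∀ z, dist z y ≤ s →
      z ∈ Nb (x + 2 * s) (B1 b) \ B1 b ∧ z ∈ Nb (2 * x + 2 * s + M1) (E b) \ E b := by
    intro b hb y hy z hd
    rw [e2 b hb] at hy
    have h4 : z ∈ Nb (x + 2 * s) (B1 b) :=
      nb_mono (by linarith) subset_rfl (nb_step (nb_nb (t := x + s) subset_rfl le_rfl hy.1) hd)
    have h5 : z ∉ B1 b := fun hz => hy.2 ⟨z, hz, by rwa [dist_comm]⟩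
    exact ⟨⟨h4, h5⟩, nb_nb (hB1' b) (by linarith) h4, fun hz => h5 (hB1 b hz)⟩
  refine ⟨B, fun n => Set.Subset.trans ?_ (hB n), fun n hn => (hB' n (by omega)).trans ?_,
    fun n hn => ?_, fun l => ?_⟩
  · rcases lt_trichotomy n i with hn | rfl | hn
    · rw [e3 n hn]
    · rwa [e1]
    · rw [e2 n hn]
      exact (hB1 n).trans (sub_nb hs0 _)
  · rw [e2 n hn]
    exact nb_nb (nb_nb (t := s + M1) (hB1' n) le_rfl) (by linarith)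
  · rcases Nat.lt_succ_iff_lt_or_eq.1 hn with hn | rfl
    · exact e3 n hn ▸ hB'' n hn
    · refine ((sub_nb (by linarith) _).trans (hB' n le_rfl)).trans ?_
      rw [e1, hD]
      exact nb_nb hEd' (by linarith)
  obtain ⟨P, hP⟩ : ∃ P : Set X, P = {y | y ∈ S.A l w' ∩ C ∧ Dbl x E' i y ∧
    ¬ Dbl (2 * x + 2 * s + M1) E (i + 1) y ∧ y ∉ V1 \ G} := ⟨_, rfl⟩
  have hτ : ∀ y, ∃ b, y ∈ P → i < b ∧ y ∈ Nb x (E' b) \ E' b ∧ y ∉ G := by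
    intro y
    by_cases hy : y ∈ P
    swap
    · exact ⟨0, fun h => (hy h).elim⟩
    rw [hP] at hy
    obtain ⟨-, ⟨a, b, hab, ha, hb, hya, hyb⟩, hn, -⟩ := hy
    rcases ha.eq_or_lt with rfl | ha
    · exact ⟨b, fun _ => ⟨by omega, hyb, hEdG y (e1 ▸ hya)⟩⟩
    rcases hb.eq_or_lt with rfl | hb
    · exact ⟨a, fun _ => ⟨ha, hya, hEdG y (e1 ▸ hyb)⟩⟩
    exact (hn ⟨a, b, hab, ha, hb, (thick a ha y hya y (by rwa [dist_self])).2,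
      (thick b hb y hyb y (by rwa [dist_self])).2⟩).elim
  choose τ hτ using hτ
  have hPc : Col q (M + 2 * θ) M1 P := by
    rw [← hs]
    refine col_local hM1 τ (fun y hy z hz hd => ?_) fun y hy => ?_
    · by_contra hne
      have h4 := hP ▸ hy
      exact h4.2.2.1 ⟨τ y, τ z, hne, (hτ y hy).1, (hτ z hz).1,
        (thick _ (hτ y hy).1 y (hτ y hy).2.1 y (by rwa [dist_self])).2,
        (thick _ (hτ z hz).1 z (hτ z hz).2.1 y hd).2⟩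
    · refine (hB1c (τ y) l).mono le_rfl (by linarith) le_rfl ?_
      rintro z ⟨hz, he⟩
      have h4 := hP ▸ hz
      exact ⟨⟨h4.1, he ▸ (thick _ (hτ z hz).1 z (hτ z hz).2.1 z (by rwa [dist_self])).1⟩,
        fun hv => h4.2.2.2 ⟨hv, (hτ z hz).2.2⟩⟩
  refine (col_union hθ (hBc l) hPc).mono le_rfl le_rfl le_rfl ?_
  rintro y ⟨⟨h4, h5, h6⟩, h7⟩
  by_cases h8 : Dbl x E' i y
  · exact Or.inr (hP ▸ ⟨h4, h8, h6, fun hv => h7 (Or.inr hv)⟩)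
  · exact Or.inl ⟨⟨⟨S.anti l hw h4.1, h4.2⟩, h5, h8⟩, fun hv => h7 (Or.inl hv)⟩

theorem col_off {C : Set X} {B : ℕ → Set X} {θ M : ℝ} (hθ : 0 ≤ θ) (hM : 0 ≤ M)
    (hB : ∀ n, Thin θ M (Nb (3 * θ) (B n))) (hC : ∀ x ∈ C, ∃ n, x ∈ B n) :
    Col 2 θ M (C \ {z | ∃ a b, a ≠ b ∧ z ∈ Nb (4 * θ) (B a) \ Nb θ (B a) ∧
      z ∈ Nb (4 * θ) (B b) \ Nb θ (B b)}) := by
  have h0 : Thin θ M {z | z ∈ C ∧ ∀ n, z ∈ Nb (3 * θ) (B n) → z ∈ Nb (2 * θ) (B n)} := by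
    intro x y hc
    rcases hc.eq_or_mem with rfl | hx
    · rwa [dist_self]
    obtain ⟨n, hn⟩ := hC x hx.1
    refine hB n x y ((hc.refine (T' := Nb (2 * θ) (B n))
      (fun _ => sub_nb (by linarith) _ hn) ?_).mono le_rfl (nb_mono (by linarith) subset_rfl))
    intro a b _ _ ha _ hb hab
    exact hb.2 n (nb_mono (by linarith) subset_rfl (nb_step ha (dist_comm a b ▸ hab)))
  have h1 : Thin θ M {z | (¬ ∃ a b, a ≠ b ∧ z ∈ Nb (4 * θ) (B a) \ Nb θ (B a) ∧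
      z ∈ Nb (4 * θ) (B b) \ Nb θ (B b)) ∧ ∃ n, z ∈ Nb (3 * θ) (B n) \ Nb (2 * θ) (B n)} := by
    intro x y hc
    rcases hc.eq_or_mem with rfl | ⟨-, n, hn⟩
    · rwa [dist_self]
    refine hB n x y ((hc.refine (T' := Nb (3 * θ) (B n) \ Nb (2 * θ) (B n))
      (fun _ => hn) ?_).mono le_rfl fun _ hz => hz.1)
    rintro a b - - ha ⟨hK, -⟩ ⟨-, n', hn'⟩ hab
    by_cases e : n = n'
    · exact e ▸ hn'
    refine (hK ⟨n, n', e, ⟨nb_mono (by linarith) subset_rfl ha.1,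
      fun h => ha.2 (nb_mono (by linarith) subset_rfl h)⟩,
      nb_mono (by linarith) subset_rfl (nb_step hn'.1 hab), fun h => hn'.2 ?_⟩).elim
    exact nb_mono (by linarith) subset_rfl (nb_step h (dist_comm a b ▸ hab))
  refine (col_add (col_one h0) (col_one h1)).mono le_rfl le_rfl le_rfl fun z hz => ?_
  by_cases h : ∀ n, z ∈ Nb (3 * θ) (B n) → z ∈ Nb (2 * θ) (B n)
  · exact Or.inl ⟨hz.1, h⟩
  · push Not at h
    exact Or.inr ⟨hz.2, h⟩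

theorem Sep.walls {S : Sys X Ω ι q} {j : ℕ} {𝒞 : Set (Set X)} (h : Sep S (j + 1) 𝒞)
    (hC : Apc1 𝒞) (θ : ℝ) (hθ : 0 ≤ θ) (w : Ω) : ∃ w' M, S.le w w' ∧ 0 ≤ M ∧ ∀ C ∈ 𝒞, ∃ V K,
      Col j θ M V ∧ Col 2 θ M (C \ K) ∧ ∀ i, Col q θ M ((S.A i w' ∩ C ∩ Nb θ K) \ V) := by
  classical
  have hstep : ∀ p : {p : ℝ × ℝ × Ω // 0 ≤ p.1 ∧ 0 ≤ p.2.1},
      ∃ p' : {p : ℝ × ℝ × Ω // 0 ≤ p.1 ∧ 0 ≤ p.2.1}, S.le p.1.2.2 p'.1.2.2 ∧
        ∀ (i : ℕ) (D : ℕ → ℝ), D i = p'.1.1 → Inv S j 𝒞 θ i D p.1.1 p.1.2.1 p.1.2.2 →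
          Inv S j 𝒞 θ (i + 1) D p'.1.1 p'.1.2.1 p'.1.2.2 := by
    intro p
    obtain ⟨x', M', w', h1, h2, h3, h4⟩ := inv_step h hθ p.2.1 p.2.2 p.1.2.2
    exact ⟨⟨(x', M', w'), h1, h2⟩, h3, h4⟩
  choose F hF hF' using hstep
  let t : ℕ → {p : ℝ × ℝ × Ω // 0 ≤ p.1 ∧ 0 ≤ p.2.1} := fun n =>
    Nat.rec ⟨(5 * θ, 0, w), by linarith, le_rfl⟩ (fun _ p => F p) n
  let D : ℕ → ℝ := fun n => (t (n + 1)).1.1
  have hD : ∀ n, 0 ≤ D n := fun n => (t (n + 1)).2.1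
  have ht : ∀ n, S.le w (t n).1.2.2 ∧ Inv S j 𝒞 θ n D (t n).1.1 (t n).1.2.1 (t n).1.2.2 := by
    intro n
    induction n with
    | zero =>
      exact ⟨S.refl w, fun C _ => ⟨∅, as_col_empty j θ le_rfl fun _ h => h, fun E =>
        ⟨E, fun _ => subset_rfl, fun _ _ => subset_rfl, fun _ hn => by omega,
          fun l => as_col_empty q θ le_rfl fun y hy => hy.1.2.2 hy.1.2.1⟩⟩⟩
    | succ n ih => exact ⟨S.trans ih.1 (hF _), hF' _ n D rfl ih.2⟩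
  obtain ⟨k, M0, hk⟩ := hC fun n => θ + 2 * (3 * θ + D n)
  obtain ⟨hw, hinv⟩ := ht k
  have hM1 := (t k).2.2
  generalize (t k).1.1 = x at hinv
  generalize (t k).1.2.1 = M1 at hinv hM1
  generalize (t k).1.2.2 = w' at hinv hw
  have hDs : ∀ n < k, D n ≤ ∑ n ∈ Finset.range k, D n := fun n hn =>
    Finset.single_le_sum (fun n _ => hD n) (Finset.mem_range.2 hn)
  have hD0 : 0 ≤ ∑ n ∈ Finset.range k, D n := Finset.sum_nonneg fun n _ => hD n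
  generalize ∑ n ∈ Finset.range k, D n = Ds at hDs hD0
  have h0 := abs_nonneg M0
  have h0' := le_abs_self M0
  refine ⟨w', M1 + |M0| + 2 * (3 * θ + Ds), hw, by linarith, fun C hC => ?_⟩
  obtain ⟨V, hV, h1⟩ := hinv C hC
  obtain ⟨T, hT, hT'⟩ := hk C hC
  obtain ⟨B, hB, hB', hB'', hBc⟩ := h1 fun n => if n < k then T n else ∅
  refine ⟨V, _, hV.mono le_rfl le_rfl (by linarith) subset_rfl,
    col_off (B := B) hθ (by linarith) (fun n => ?_) (fun y hy => ?_),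
    fun l => (hBc l).mono le_rfl le_rfl (by linarith) ?_⟩
  · by_cases hn : n < k
    · have h2 := hB'' n hn
      rw [if_pos hn] at h2
      exact (thin_nb (by linarith [hD n]) (hT n hn)).mono le_rfl (by linarith [hDs n hn])
        (nb_nb h2 le_rfl)
    · refine (thin_empty θ (by linarith)).mono le_rfl le_rfl fun y hy => ?_
      obtain ⟨z, hz, -⟩ := hB' n (by omega) (nb_mono (by linarith) subset_rfl hy)
      rwa [if_neg hn] at hz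
  · obtain ⟨n, hn, hy⟩ := hT' y hy
    exact ⟨n, hB n (by rwa [if_pos hn])⟩
  · rintro y ⟨⟨h2, z, ⟨a, b, hab, ha, hb⟩, hd⟩, hv⟩
    have key : ∀ c, z ∈ Nb (4 * θ) (B c) \ Nb θ (B c) → y ∈ Nb (5 * θ) (B c) \ B c :=
      fun c hc => ⟨nb_mono (by linarith) subset_rfl (nb_step hc.1 hd),
        fun hy => hc.2 ⟨y, hy, by rwa [dist_comm]⟩⟩
    refine ⟨⟨h2, ⟨a, b, hab, Nat.zero_le _, Nat.zero_le _, key a ha, key b hb⟩, ?_⟩, hv⟩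
    rintro ⟨c, -, -, hc, -, ⟨⟨u, hu, -⟩, -⟩, -⟩
    simp only [if_neg (not_lt.2 hc)] at hu
    exact hu

theorem Sep.two {S : Sys X Ω ι q} {j : ℕ} {𝒞 : Set (Set X)} (h : Sep S (j + 1) 𝒞)
    (hC : Apc1 𝒞) (hq : 2 ≤ q) : Two S j 𝒞 := by
  intro s hs w
  obtain ⟨w', M, h1, h2, h3⟩ := h.walls hC s hs w
  refine ⟨w', M, h1, h2, fun C hC => ?_⟩
  obtain ⟨V, K, h4, h5, h6⟩ := h3 C hC
  exact ⟨V, K, h4, fun i => ⟨h5.mono hq le_rfl le_rfl fun y hy => ⟨hy.1.1.2, hy.1.2⟩, h6 i⟩⟩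

theorem Sep.root {S : Sys X Ω ι q} {𝒞 : Set (Set X)} (h : Sep S 1 𝒞) (hC : Apc1 𝒞) :
    Root S 2 𝒞 := by
  intro s hs w
  obtain ⟨w', M, h1, h2, h3⟩ := h.walls hC s hs w
  refine ⟨w', M, h1, h2, fun C hC => ?_⟩
  obtain ⟨V, K, ⟨κ, h4, -⟩, h5, h6⟩ := h3 C hC
  refine ⟨_, h5, fun i => (h6 i).mono le_rfl le_rfl le_rfl fun y hy => ⟨⟨hy.1, ?_⟩, fun hv => ?_⟩⟩
  · by_contra hn
    exact hy.2 ⟨hy.1.2, fun hk => hn (sub_nb hs K hk)⟩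
  · exact absurd (h4 y hv) (Nat.not_lt_zero _)

theorem Two.root {S : Sys X Ω ι q} {j : ℕ} {𝒞 : Set (Set X)} (h : Two S (j + 1) 𝒞)
    (hC : Apc1 𝒞) (hq : 2 ≤ q) : Root S 2 𝒞 := by
  induction j with
  | zero => exact h.sep.root hC
  | succ j ih => exact ih (h.sep.two hC hq)

end Pool.Agent.Apc.Dg
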